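import Pool.Agent.helper73.TreeUltra

set_option autoImplicit false
set_option linter.deprecated false

open Set Filter Cardinal Function

namespace Pool.Agent.helper73.TreeUltra

lemma mem_bind_iff {α β : Type} {v : Ultrafilter α} {p : α → Ultrafilter β} {M : Set β} :
    M ∈ v.bind p ↔ {n | M ∈ p n} ∈ v := Iff.rfl

lemma bind_map {α β γ : Type} (v : Ultrafilter α) (p : α → Ultrafilter β) (f : β → γ) :
    (v.bind p).map f = v.bind fun n => (p n).map f := by
  ext M
  rfl

lemma map_bind {α β γ : Type} (v : Ultrafilter α) (φ : α → β) (p : β → Ultrafilter γ) :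
    (v.map φ).bind p = v.bind (p ∘ φ) := by
  ext M
  rfl

lemma bind_inj {p : ℕ → Ultrafilter ℕ} {R : ℕ → Set ℕ} (hR : ∀ n, R n ∈ p n)
    (hd : Pairwise (Disjoint on R)) {v v' : Ultrafilter ℕ} (h : v.bind p = v'.bind p) :
    v = v' := by
  have key : ∀ (w : Ultrafilter ℕ) (B : Set ℕ), B ∈ w ↔ (⋃ n ∈ B, R n) ∈ w.bind p := by
    intro w B
    rw [mem_bind_iff]
    have : B = {n | (⋃ n ∈ B, R n) ∈ p n} := by
      ext n
      constructor
      · intro hn
        exact mem_of_superset (hR n) (subset_biUnion_of_mem (u := R) hn)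
      · intro hn
        obtain ⟨a, ha1, ha2⟩ := (p n).nonempty_of_mem (inter_mem (hR n) hn)
        rw [mem_iUnion₂] at ha2
        obtain ⟨k, hk, hak⟩ := ha2
        by_contra hcon
        have hne : n ≠ k := by
          rintro rfl
          exact hcon hk
        exact Set.disjoint_left.1 (hd hne) ha1 hak
    conv_lhs => rw [this]
  ext B
  rw [key v B, key v' B, h]

/-- The nodes that leave `x` at a level in `R`. -/
def OffR (x : ℕ → Bool) (R : Set ℕ) : Set D := {s | ∃ j ∈ R, s ∈ Off x j}

/-- The hypotheses under which limits are admissible. -/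
structure Hyp (p : ℕ → Ultrafilter D) (x : ℕ → Bool) (R : ℕ → Set ℕ) : Prop where
  off : ∀ n, OffR x (R n) ∈ p n
  disj : Pairwise (Disjoint on R)
  small : ∀ n, ∃ M ∈ p n, SmallAC M
  cyl : ∀ m, ∀ᶠ n in cofinite, Cyl x m ∈ p n

variable {p : ℕ → Ultrafilter D} {x : ℕ → Bool} {R : ℕ → Set ℕ}

lemma Hyp.locAt (h : Hyp p x R) {v : Ultrafilter ℕ} (hv : (v : Filter ℕ) ≤ cofinite) :
    LocAt x (v.bind p) := by
  intro m
  rw [mem_bind_iff]
  exact hv (h.cyl m)

lemma Hyp.adm (h : Hyp p x R) {v : Ultrafilter ℕ} (hv : (v : Filter ℕ) ≤ cofinite) :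
    Adm (v.bind p) := by
  refine ⟨⟨x, h.locAt hv⟩, ?_⟩
  choose M hMp hMs using h.small
  refine ⟨⋃ n, (M n ∩ OffR x (R n)), ?_, ?_, ?_⟩
  · rw [mem_bind_iff]
    refine mem_of_superset univ_mem fun n _ => ?_
    exact mem_of_superset (inter_mem (hMp n) (h.off n))
      (subset_iUnion (fun n => M n ∩ OffR x (R n)) n)
  · intro s hs s' hs' hne
    rw [mem_iUnion] at hs hs'
    obtain ⟨n, hsn, j, hj, hsj⟩ := hs
    obtain ⟨n', hsn', j', hj', hsj'⟩ := hs'
    by_cases hnn : n = n'
    · subst hnn
      exact (hMs n).1 s hsn s' hsn' hne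
    · refine inc_of_off hsj hsj' ?_
      rintro rfl
      exact Set.disjoint_left.1 (h.disj hnn) hj hj'
  · refine ((xx_countable x).union (countable_iUnion fun n => (hMs n).2)).mono ?_
    intro α hα
    by_cases hx : xx α = x
    · exact Or.inl hx
    · right
      obtain ⟨i, hi⟩ : ∃ i, xx α i ≠ x i := by
        by_contra hcon
        push Not at hcon
        exact hx (funext hcon)
      classical
      have hex : ∃ i, xx α i ≠ x i := ⟨i, hi⟩
      have h1 : Off x (Nat.find hex) ∈ aa α := by
        refine cyl_mem_of_locAt (aa_loc α) (fun l hl => ?_) (Nat.find_spec hex)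
        have := Nat.find_min hex hl
        push Not at this
        exact this
      have h2 : (⋃ n, (M n ∩ OffR x (R n))) ∩ Off x (Nat.find hex) ∈ aa α := inter_mem hα h1
      obtain ⟨s, hs1, hs2⟩ := (aa α).nonempty_of_mem h2
      rw [mem_iUnion] at hs1
      obtain ⟨n, hsn, j, hj, hsj⟩ := hs1
      have hjj := Off_unique hsj hs2
      subst hjj
      rw [mem_iUnion]
      refine ⟨n, mem_of_superset h2 ?_⟩
      rintro s' ⟨hs1', hs2'⟩
      rw [mem_iUnion] at hs1'
      obtain ⟨n', hsn', j', hj', hsj'⟩ := hs1'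
      have hjj := Off_unique hsj' hs2'
      rw [hjj] at hj'
      have : n' = n := by
        by_contra hnn
        exact Set.disjoint_left.1 (h.disj hnn) hj' hj
      rw [← this]
      exact hsn'

lemma Hyp.key_inj (h : Hyp p x R) {v v' : Ultrafilter ℕ} (hv : (v : Filter ℕ) ≤ cofinite)
    (hv' : (v' : Filter ℕ) ≤ cofinite) (he : key (v.bind p) = key (v'.bind p)) : v = v' := by
  rw [key_eq (h.locAt hv), key_eq (h.locAt hv')] at he
  have h2 := congrArg Prod.snd he
  dsimp only at h2
  rw [bind_map, bind_map] at h2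
  refine bind_inj (R := R) (fun n => ?_) h.disj h2
  rw [Ultrafilter.mem_map]
  refine mem_of_superset (h.off n) ?_
  rintro s ⟨j, hj, hsj⟩
  change lv x s ∈ R n
  rw [lv_eq hsj]
  exact hj

/-- candidates -/
def Cand (p : ℕ → Ultrafilter D) : Set (Ultrafilter D) :=
  {u | Adm u ∧ (∃ v : Ultrafilter ℕ, (v : Filter ℕ) ≤ cofinite ∧ u = v.bind p) ∧
    ∀ α, key u ≠ key (aa α)}

lemma Hyp.card (h : Hyp p x R) : continuum ≤ #(key '' Cand p) := by
  have hinf : Infinite (ℕ → Bool) := inferInstance
  let bad : Set (ℕ → Bool) := {r | ∃ α, key ((vv r).bind p) = key (aa α)}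
  have hbad : bad.Countable := by
    have hch : ∀ r : bad, ∃ α, key ((vv r.1).bind p) = key (aa α) := fun r => r.2
    choose f hf using hch
    have hfx : ∀ r, xx (f r) = x := by
      intro r
      have := hf r
      rw [key_eq (h.locAt (vv_free _)), key_aa] at this
      exact (congrArg Prod.fst this).symm
    have hinj : Injective fun r : bad => (⟨f r, hfx r⟩ : {α | xx α = x}) := by
      intro r r' hrr
      have h1 : f r = f r' := congrArg Subtype.val hrr
      have h2 := hf r
      rw [h1, ← hf r'] at h2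
      exact Subtype.ext (vv_inj (h.key_inj (vv_free _) (vv_free _) h2))
    have : Countable {α | xx α = x} := xx_countable x
    exact hinj.countable
  have hcard : #(badᶜ : Set (ℕ → Bool)) = continuum := by
    have h1 : #(ℕ → Bool) = continuum := by simp
    rw [Cardinal.mk_compl_of_infinite bad, h1]
    rw [h1]
    exact lt_of_le_of_lt hbad.le_aleph0 aleph0_lt_continuum
  rw [← hcard]
  have hmem : ∀ r : (badᶜ : Set (ℕ → Bool)), key ((vv r.1).bind p) ∈ key '' Cand p := by
    intro r
    refine ⟨_, ⟨h.adm (vv_free _), ⟨_, vv_free _, rfl⟩, fun α hα => r.2 ⟨α, hα⟩⟩, rfl⟩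
  refine mk_le_of_injective (f := fun r => (⟨_, hmem r⟩ : key '' Cand p)) ?_
  intro r r' hrr
  have h1 := congrArg Subtype.val hrr
  exact Subtype.ext (vv_inj (h.key_inj (vv_free _) (vv_free _) h1))

/-! ### Disjoint members for distinct ultrafilters -/

lemma exists_disjoint (c : ℕ → Ultrafilter ℕ) (S : Set ℕ) (hS : (c '' S).Infinite) :
    ∃ ψ : ℕ → ℕ, Injective ψ ∧ (∀ k, ψ k ∈ S) ∧
      ∃ R : ℕ → Set ℕ, (∀ k, R k ∈ c (ψ k)) ∧ Pairwise (Disjoint on R) := by
  have hinf : Infinite (c '' S) := hS.to_subtype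
  obtain ⟨U, hUi, hUo, hUd⟩ := exists_seq_infinite_isOpen_pairwise_disjoint (c '' S)
  have h1 : ∀ n, ∃ k ∈ S, ∃ hk : c k ∈ c '' S, (⟨c k, hk⟩ : c '' S) ∈ U n := by
    intro n
    obtain ⟨⟨y, k, hk, rfl⟩, hy⟩ := (hUi n).nonempty
    exact ⟨k, hk, _, hy⟩
  choose ψ hψS hψ hψU using h1
  have h2 : ∀ n, ∃ T : Set ℕ, T ∈ c (ψ n) ∧ ∀ u (hu : u ∈ c '' S), T ∈ u →
      (⟨u, hu⟩ : c '' S) ∈ U n := by
    intro n
    obtain ⟨O, hO, hOU⟩ := isOpen_induced_iff.1 (hUo n)
    have h3 : c (ψ n) ∈ O := by
      have := hψU n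
      rw [← hOU] at this
      exact this
    obtain ⟨_, ⟨T, rfl⟩, hT1, hT2⟩ := ultrafilterBasis_is_basis.exists_subset_of_mem_open h3 hO
    refine ⟨T, hT1, fun u hu hTu => ?_⟩
    rw [← hOU]
    exact hT2 hTu
  choose T hT hTU using h2
  have h3 : ∀ k l, k ≠ l → T k ∉ c (ψ l) := by
    intro k l hkl hcon
    exact Set.disjoint_left.1 (hUd hkl) (hTU k _ (hψ l) hcon) (hψU l)
  refine ⟨ψ, ?_, hψS, fun k => T k \ ⋃ l ∈ Iio k, T l, ?_, ?_⟩
  · intro k l hkl
    by_contra hne
    exact h3 k l hne (by rw [← hkl]; exact hT k)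
  · intro k
    have h4 : (⋂ l ∈ Iio k, (T l)ᶜ) ∈ c (ψ k) := by
      rw [← Ultrafilter.mem_coe, biInter_mem (finite_Iio k)]
      intro l hl
      rw [Ultrafilter.mem_coe, Ultrafilter.compl_mem_iff_notMem]
      exact h3 l k (ne_of_lt hl)
    refine mem_of_superset (inter_mem (hT k) h4) ?_
    rintro a ⟨ha1, ha2⟩
    refine ⟨ha1, ?_⟩
    rw [mem_iInter₂] at ha2
    intro hcon
    rw [mem_iUnion₂] at hcon
    obtain ⟨l, hl, hal⟩ := hcon
    exact ha2 l hl hal
  · intro k l hkl
    rw [Function.onFun, Set.disjoint_left]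
    rintro a ⟨ha1, ha2⟩ ⟨ha3, ha4⟩
    rcases lt_or_gt_of_ne hkl with h | h
    · exact ha4 (mem_iUnion₂.2 ⟨k, h, ha1⟩)
    · exact ha2 (mem_iUnion₂.2 ⟨l, h, ha3⟩)

/-! ### The family -/

/-- a double extraction -/
lemma extract2 (g m : ℕ → ℕ) (hg : ∀ N, N ≤ g N) (hm : ∀ N, N ≤ m N) :
    ∃ φ : ℕ → ℕ, StrictMono φ ∧ Injective (g ∘ φ) ∧ StrictMono (m ∘ φ) := by
  have hg' : Tendsto g atTop atTop := tendsto_atTop_mono hg tendsto_id
  have hm' : Tendsto m atTop atTop := tendsto_atTop_mono hm tendsto_id
  obtain ⟨φ₁, h1, h2⟩ := Filter.strictMono_subseq_of_tendsto_atTop hg'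
  obtain ⟨φ₂, h3, h4⟩ := Filter.strictMono_subseq_of_tendsto_atTop (hm'.comp h1.tendsto_atTop)
  refine ⟨φ₁ ∘ φ₂, h1.comp h3, ?_, h4⟩
  exact (h2.comp h3).injective

theorem exists_AA : ∃ A : Set (Ultrafilter D), (∀ u ∈ A, Adm u) ∧ (∀ α, aa α ∈ A) ∧
    (∀ w : ℕ → Ultrafilter D, (∀ n, w n ∈ A) →
      ∃ v : Ultrafilter ℕ, (v : Filter ℕ) ≤ cofinite ∧ v.bind w ∈ A) ∧
    (∀ (w : ℕ → D) (x : ℕ → Bool), (∀ N, ∃ n ≥ N, ∃ j ≥ N, w n ∈ Off x j) →
      ∃ v : Ultrafilter ℕ, (v : Filter ℕ) ≤ cofinite ∧ v.map w ∈ A) := by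
  obtain ⟨A', hinj, hcand, hclosed⟩ := Recur.exists_family (ι := D ⊕ W1) key
    (Sum.elim (fun s => (pure s : Ultrafilter D)) aa) (by
      rw [mk_sum, lift_id, lift_id, mk_W1, Cardinal.mk_eq_aleph0 D]
      exact Cardinal.add_le_of_le aleph0_le_continuum aleph0_le_continuum
        aleph_one_le_continuum) Cand
  have hadm : ∀ u ∈ A' ∪ range aa, Adm u := by
    rintro u (hu | ⟨α, rfl⟩)
    · obtain ⟨p, hp⟩ := hcand u hu
      exact hp.1
    · exact adm_aa α
  have hkey : InjOn key (A' ∪ range aa) := by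
    rintro u (hu | ⟨α, rfl⟩) w (hw | ⟨β, rfl⟩) he
    · exact hinj hu hw he
    · obtain ⟨p, hp⟩ := hcand u hu
      exact absurd he (hp.2.2 β)
    · obtain ⟨p, hp⟩ := hcand w hw
      exact absurd he.symm (hp.2.2 α)
    · exact congrArg aa (key_aa_inj he)
  -- general extraction
  have hext : ∀ (w : ℕ → Ultrafilter D) (φ : ℕ → ℕ) (x : ℕ → Bool) (R : ℕ → Set ℕ),
      Injective φ → (∀ n, w n ∈ A' ∪ range aa ∨ ∃ s, w n = pure s) → Hyp (w ∘ φ) x R →
      ∃ v : Ultrafilter ℕ, (v : Filter ℕ) ≤ cofinite ∧ v.bind w ∈ A' ∪ range aa := by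
    intro w φ x R hφ hw hH
    obtain ⟨u, ⟨_, ⟨v, hv, huv⟩, _⟩, huA⟩ := hclosed (w ∘ φ) (by
      intro n
      rcases hw (φ n) with (h | ⟨α, h⟩) | ⟨s, h⟩
      · exact Or.inr h
      · exact Or.inl ⟨Sum.inr α, h⟩
      · exact Or.inl ⟨Sum.inl s, h.symm⟩) hH.card
    refine ⟨v.map φ, ?_, ?_⟩
    · exact (hφ.tendsto_cofinite.mono_left hv)
    · rw [map_bind, ← huv]
      exact Or.inl huA
  refine ⟨A' ∪ range aa, hadm, fun α => Or.inr (mem_range_self α), ?_, ?_⟩
  · intro w hw
    by_cases hrep : ∃ u, {n | w n = u}.Infinite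
    · obtain ⟨u, hu⟩ := hrep
      have hne : NeBot (cofinite ⊓ 𝓟 {n | w n = u}) := by
        rw [cofinite_inf_principal_neBot_iff]
        exact hu
      obtain ⟨v, hv⟩ := Ultrafilter.exists_le (cofinite ⊓ 𝓟 {n | w n = u})
      refine ⟨v, hv.trans inf_le_left, ?_⟩
      have hmem : {n | w n = u} ∈ v := (hv.trans inf_le_right) (mem_principal_self _)
      have : v.bind w = u := by
        ext M
        rw [mem_bind_iff]
        constructor
        · intro h
          obtain ⟨n, h1, h2⟩ := v.nonempty_of_mem (inter_mem h hmem)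
          rw [← show w n = u from h2]
          exact h1
        · intro h
          refine mem_of_superset hmem fun n hn => ?_
          change M ∈ w n
          rw [show w n = u from hn]
          exact h
      rw [this]
      obtain ⟨n, hn⟩ := hu.nonempty
      rw [← show w n = u from hn]
      exact hw n
    · push Not at hrep
      have hrep' : ∀ u, {n | w n = u}.Finite := hrep
      choose X hX using fun n => (hadm _ (hw n)).1
      classical
      let x : ℕ → Bool := fun i => decide ({n | X n i = true} ∈ hyperfilter ℕ)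
      have hx1 : ∀ i, {n | X n i = x i} ∈ hyperfilter ℕ := by
        intro i
        by_cases h : {n | X n i = true} ∈ hyperfilter ℕ
        · have : x i = true := by simp [x, h]
          rw [this]
          exact h
        · have h2 : x i = false := by simp [x, h]
          rw [h2]
          rw [← Ultrafilter.compl_mem_iff_notMem] at h
          refine mem_of_superset h fun n hn => ?_
          simpa using hn
      have hx2 : ∀ m, {n | ∀ i < m, X n i = x i} ∈ hyperfilter ℕ := by
        intro m
        have : {n | ∀ i < m, X n i = x i} = ⋂ i ∈ Iio m, {n | X n i = x i} := by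
          ext n
          simp
        rw [this, ← Ultrafilter.mem_coe, biInter_mem (finite_Iio m)]
        exact fun i _ => hx1 i
      rcases (hyperfilter ℕ).em fun n => X n = x with h | h
      · -- infinitely many at the same location
        have hSinf : {n | X n = x}.Infinite := by
          intro hfin
          exact (hyperfilter ℕ).compl_notMem_iff.2 h (hyperfilter_le_cofinite hfin.compl_mem_cofinite)
        let c : ℕ → Ultrafilter ℕ := fun n => (w n).map (lv x)
        have hcS : (c '' {n | X n = x}).Infinite := by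
          intro hfin
          apply hSinf
          refine (hfin.biUnion (t := fun d => {n | X n = x ∧ c n = d}) fun d _ => ?_).subset ?_
          · by_cases hne : ∃ n₀, X n₀ = x ∧ c n₀ = d
            · obtain ⟨n₀, h1, h2⟩ := hne
              refine (hrep' (w n₀)).subset ?_
              rintro n ⟨h3, h4⟩
              refine hkey (hw n) (hw n₀) ?_
              have l1 : LocAt x (w n) := by
                rw [← h3]
                exact hX _
              have l2 : LocAt x (w n₀) := by
                rw [← h1]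
                exact hX _
              rw [key_eq l1, key_eq l2]
              exact Prod.ext rfl (h4.trans h2.symm)
            · refine Set.finite_empty.subset ?_
              rintro n hn
              exact hne ⟨n, hn⟩
          · intro n hn
            exact mem_biUnion (mem_image_of_mem c hn) ⟨hn, rfl⟩
        obtain ⟨ψ, hψ1, hψ2, R, hR1, hR2⟩ := exists_disjoint c _ hcS
        refine hext w ψ x R hψ1 (fun n => Or.inl (hw n)) ⟨?_, hR2, ?_, ?_⟩
        · intro n
          have hl : LocAt x (w (ψ n)) := by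
            rw [← show X (ψ n) = x from hψ2 n]
            exact hX _
          obtain ⟨M, hM, hMs⟩ := (hadm _ (hw (ψ n))).2
          have h3 : lv x ⁻¹' (R n) ∈ w (ψ n) := hR1 n
          refine mem_of_superset (inter_mem hM h3) ?_
          rintro s ⟨hs1, hs2⟩
          obtain ⟨j, hj⟩ := off_of_AC hl hMs.1 hM s hs1
          refine ⟨j, ?_, hj⟩
          rw [← lv_eq hj]
          exact hs2
        · intro n
          exact (hadm _ (hw (ψ n))).2
        · intro m
          refine Eventually.of_forall fun n => ?_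
          have hl : LocAt x (w (ψ n)) := by
            rw [← show X (ψ n) = x from hψ2 n]
            exact hX _
          exact hl m
      · -- infinitely many different locations
        have h1 : ∀ N, ∃ n ≥ N, ∃ m ≥ N, (∀ i < m, X n i = x i) ∧ X n m ≠ x m := by
          intro N
          have h2 : {n | N ≤ n} ∈ hyperfilter ℕ := by
            refine hyperfilter_le_cofinite ?_
            rw [mem_cofinite]
            refine (finite_Iio N).subset fun n hn => ?_
            simpa using hn
          obtain ⟨n, ⟨hn1, hn2⟩, hn3⟩ := (hyperfilter ℕ).nonempty_of_mem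
            (inter_mem (inter_mem h (hx2 N)) h2)
          have hn1' : X n ≠ x := hn1
          have hex : ∃ i, X n i ≠ x i := by
            by_contra hcon
            push Not at hcon
            exact hn1' (funext hcon)
          refine ⟨n, hn3, Nat.find hex, ?_, fun i hi => ?_, Nat.find_spec hex⟩
          · by_contra hcon
            exact Nat.find_spec hex (hn2 _ (not_le.1 hcon))
          · have := Nat.find_min hex hi
            push Not at this
            exact this
        choose g hg m hm hgm1 hgm2 using h1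
        obtain ⟨φ, hφ, hφg, hφm⟩ := extract2 g m hg hm
        refine hext w (g ∘ φ) x (fun k => {m (φ k)}) hφg (fun n => Or.inl (hw n)) ⟨?_, ?_, ?_, ?_⟩
        · intro n
          refine mem_of_superset (cyl_mem_of_locAt (hX (g (φ n))) (hgm1 (φ n)) (hgm2 (φ n))) ?_
          intro s hs
          exact ⟨_, rfl, hs⟩
        · intro k l hkl
          rw [Function.onFun, Set.disjoint_singleton]
          exact fun h => hkl (hφm.injective h)
        · intro n
          exact (hadm _ (hw _)).2
        · intro k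
          rw [Nat.cofinite_eq_atTop]
          filter_upwards [eventually_ge_atTop k] with n hn
          refine mem_of_superset (cyl_mem_of_locAt (hX (g (φ n))) (hgm1 (φ n)) (hgm2 (φ n))) ?_
          exact Off_subset_Cyl (hn.trans (hφm.id_le n))
  · intro w x hw
    choose g hg m hm hgm using hw
    obtain ⟨φ, hφ, hφg, hφm⟩ := extract2 g m hg hm
    have hH : Hyp ((fun n => (pure (w n) : Ultrafilter D)) ∘ (g ∘ φ)) x
        (fun k => {m (φ k)}) := by
      refine ⟨?_, ?_, ?_, ?_⟩
      · intro n
        exact ⟨_, rfl, hgm (φ n)⟩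
      · intro k l hkl
        rw [Function.onFun, Set.disjoint_singleton]
        exact fun h => hkl (hφm.injective h)
      · intro n
        exact ⟨{w (g (φ n))}, mem_singleton _, small_singleton _⟩
      · intro k
        rw [Nat.cofinite_eq_atTop]
        filter_upwards [eventually_ge_atTop k] with n hn
        exact Off_subset_Cyl (hn.trans (hφm.id_le n)) (hgm (φ n))
    obtain ⟨v, hv, hvA⟩ := hext (fun n => pure (w n)) (g ∘ φ) x (fun k => {m (φ k)}) hφg
      (fun n => Or.inr ⟨w n, rfl⟩) hH
    refine ⟨v, hv, ?_⟩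
    have : v.map w = v.bind fun n => pure (w n) := by
      ext M
      rfl
    rw [this]
    exact hvA

end Pool.Agent.helper73.TreeUltra
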