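import Mathlib

set_option autoImplicit false

open Set Filter

namespace Pool.Agent.helper73.Coherent

set_option linter.unusedSectionVars false

variable {W : Type} [LinearOrder W] [WellFoundedLT W]

/-- finite-to-one below `γ` -/
def FTO (γ : W) (f : W → ℕ) : Prop := ∀ n, {β | β < γ ∧ f β ≤ n}.Finite

/-- equal below `δ` up to finitely many exceptions -/
def Coh (δ : W) (f g : W → ℕ) : Prop := {β | β < δ ∧ f β ≠ g β}.Finite

lemma Coh.symm {δ : W} {f g : W → ℕ} (h : Coh δ f g) : Coh δ g f :=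
  Set.Finite.subset h fun _ hb => ⟨hb.1, hb.2.symm⟩

lemma Coh.mono {δ δ' : W} {f g : W → ℕ} (h : Coh δ f g) (hd : δ' ≤ δ) : Coh δ' f g :=
  Set.Finite.subset h fun _ hb => ⟨lt_of_lt_of_le hb.1 hd, hb.2⟩

lemma step (hc : ∀ a : W, (Iio a).Countable) (γ : W) (E : W → W → ℕ)
    (h1 : ∀ δ < γ, FTO δ (E δ)) (h2 : ∀ δ < γ, ∀ δ' < δ, Coh δ' (E δ') (E δ)) :
    ∃ f : W → ℕ, FTO γ f ∧ ∀ δ < γ, Coh δ (E δ) f := by
  classical
  by_cases hne : (Iio γ).Nonempty
  · obtain ⟨u, hu⟩ := (hc γ).exists_eq_range hne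
    have hu' : ∀ n, u n < γ := fun n => by
      have : u n ∈ Iio γ := by rw [hu]; exact mem_range_self n
      exact this
    -- partial maxima
    let c : ℕ → W := fun n => (Finset.range (n + 1)).sup' ⟨0, by simp⟩ u
    have hcγ : ∀ n, c n < γ := fun n => by
      rw [Finset.sup'_lt_iff]
      exact fun i _ => hu' i
    have hcu : ∀ n, u n ≤ c n := fun n => Finset.le_sup' u (by simp)
    have hcof : ∀ α < γ, ∃ n, α ≤ c n := by
      intro α hα
      have : α ∈ range u := by rw [← hu]; exact hα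
      obtain ⟨n, rfl⟩ := this
      exact ⟨n, hcu n⟩
    have hmono : Monotone c := by
      intro m n hmn
      apply Finset.sup'_mono
      intro i hi
      simp only [Finset.mem_range] at hi ⊢
      omega
    let ν : W → ℕ := fun α => if h : ∃ n, α ≤ c n then Nat.find h else 0
    have hν1 : ∀ α < γ, α ≤ c (ν α) := by
      intro α hα
      have h := hcof α hα
      simp only [ν, dif_pos h]
      exact Nat.find_spec h
    have hν2 : ∀ α n, α ≤ c n → ν α ≤ n := by
      intro α n hn
      have h : ∃ n, α ≤ c n := ⟨n, hn⟩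
      simp only [ν, dif_pos h]
      exact Nat.find_min' h hn
    refine ⟨fun α => if α < c (ν α) then max (ν α) (E (c (ν α)) α) else ν α, ?_, ?_⟩
    · intro k
      have hfin : (⋃ n ∈ Iic k, ({c n} ∪ {β | β < c n ∧ E (c n) β ≤ k})).Finite := by
        refine (finite_Iic k).biUnion fun n _ => ?_
        exact (finite_singleton _).union (h1 _ (hcγ n) k)
      refine hfin.subset ?_
      rintro β ⟨hβ, hk⟩
      rw [mem_iUnion₂]
      by_cases hlt : β < c (ν β)
      · simp only [if_pos hlt] at hk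
        exact ⟨ν β, le_trans (le_max_left _ _) hk, Or.inr ⟨hlt, le_trans (le_max_right _ _) hk⟩⟩
      · simp only [if_neg hlt] at hk
        exact ⟨ν β, hk, Or.inl (le_antisymm (hν1 β hβ) (not_lt.1 hlt))⟩
    · intro δ hδ
      obtain ⟨N, hN⟩ := hcof δ hδ
      have hcoh : ∀ n, {β | β < δ ∧ β < c n ∧ E δ β ≠ E (c n) β}.Finite := by
        intro n
        rcases lt_trichotomy δ (c n) with h | h | h
        · exact (h2 _ (hcγ n) δ h).subset fun β hβ => ⟨hβ.1, hβ.2.2⟩
        · refine Set.finite_empty.subset ?_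
          rintro β ⟨_, _, hb⟩
          exact hb (by rw [h])
        · exact (h2 _ hδ _ h).symm.subset fun β hβ => ⟨hβ.2.1, hβ.2.2⟩
      have hfin : (⋃ n ∈ Iic N, ({c n} ∪ ({β | β < δ ∧ β < c n ∧ E δ β ≠ E (c n) β} ∪
          {β | β < c n ∧ E (c n) β ≤ n}))).Finite := by
        refine (finite_Iic N).biUnion fun n _ => ?_
        exact (finite_singleton _).union ((hcoh n).union (h1 _ (hcγ n) n))
      refine Set.Finite.subset hfin ?_
      rintro β ⟨hβ, hk⟩
      rw [mem_iUnion₂]
      refine ⟨ν β, hν2 β N (hβ.le.trans hN), ?_⟩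
      by_cases hlt : β < c (ν β)
      · simp only [if_pos hlt] at hk
        by_cases he : E δ β = E (c (ν β)) β
        · right; right
          refine ⟨hlt, ?_⟩
          by_contra hcon
          push Not at hcon
          apply hk
          rw [he, max_eq_right hcon.le]
        · exact Or.inr (Or.inl ⟨hβ, hlt, he⟩)
      · left
        exact le_antisymm (hν1 β (hβ.trans hδ)) (not_lt.1 hlt)
  · refine ⟨fun _ => 0, ?_, ?_⟩
    · intro n
      refine Set.finite_empty.subset ?_
      rintro β ⟨hβ, _⟩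
      exact hne ⟨β, hβ⟩
    · intro δ hδ
      exact absurd ⟨δ, hδ⟩ hne

open Classical in
/-- one stage of the recursion -/
noncomputable def stage (γ : W) (prev : ∀ δ, δ < γ → W → ℕ) : W → ℕ :=
  if h : ∃ f : W → ℕ, FTO γ f ∧ ∀ δ, ∀ hδ : δ < γ, Coh δ (prev δ hδ) f
  then h.choose else fun _ => 0

theorem exists_coherent (hc : ∀ a : W, (Iio a).Countable) :
    ∃ e : W → W → ℕ, (∀ γ, FTO γ (e γ)) ∧ ∀ γ, ∀ δ < γ, Coh δ (e δ) (e γ) := by
  classical
  let e : W → W → ℕ := (wellFounded_lt (α := W)).fix stage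
  have he : ∀ γ, e γ = stage γ (fun δ _ => e δ) := fun γ => WellFounded.fix_eq _ _ _
  have key : ∀ γ, FTO γ (e γ) ∧ ∀ δ < γ, Coh δ (e δ) (e γ) := by
    intro γ
    induction γ using WellFoundedLT.induction with
    | ind γ ih =>
      obtain ⟨f, hf1, hf2⟩ := step hc γ e (fun δ hδ => (ih δ hδ).1) (fun δ hδ => (ih δ hδ).2)
      have hex : ∃ f : W → ℕ, FTO γ f ∧ ∀ δ, ∀ hδ : δ < γ, Coh δ (e δ) f := ⟨f, hf1, hf2⟩
      have := hex.choose_spec
      rw [he γ, stage, dif_pos hex]
      exact this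
  exact ⟨e, fun γ => (key γ).1, fun γ => (key γ).2⟩

/-- the symmetric version -/
def sym (e : W → W → ℕ) (α β : W) : ℕ := e (max α β) (min α β)

lemma sym_comm (e : W → W → ℕ) (α β : W) : sym e α β = sym e β α := by
  simp only [sym, max_comm, min_comm]

lemma sym_of_lt (e : W → W → ℕ) {α β : W} (h : α < β) : sym e α β = e β α := by
  simp only [sym, max_eq_right h.le, min_eq_left h.le]

/-- a countable set is bounded -/
lemma exists_bound [Uncountable W] (hc : ∀ a : W, (Iio a).Countable) {B : Set W}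
    (hB : B.Countable) : ∃ γ, ∀ β ∈ B, β < γ := by
  have h1 : (⋃ β ∈ B, Iic β).Countable := by
    refine hB.biUnion fun β _ => ?_
    rw [← Iio_insert]
    exact (hc β).insert β
  obtain ⟨γ, hγ⟩ : ∃ γ, γ ∉ ⋃ β ∈ B, Iic β := by
    by_contra hcon
    push Not at hcon
    exact not_countable (α := W) (countable_univ_iff.1 (h1.mono fun x _ => hcon x))
  refine ⟨γ, fun β hβ => ?_⟩
  rw [mem_iUnion₂] at hγ
  push Not at hγ
  exact not_le.1 fun h => hγ β hβ h

/-- (E2) -/
theorem exists_dom [Uncountable W] (hc : ∀ a : W, (Iio a).Countable) {e : W → W → ℕ}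
    (he : ∀ γ, ∀ δ < γ, Coh δ (e δ) (e γ)) {B : Set W} (hB : B.Countable) :
    ∃ g : W → ℕ, ∀ α, {β | β ∈ B ∧ g β ≤ sym e α β}.Finite := by
  classical
  obtain ⟨γ, hγ⟩ := exists_bound hc hB
  obtain ⟨idx, hidx⟩ := Set.countable_iff_exists_injOn.1 (hc γ)
  have hfin : ∀ k, {α | α < γ ∧ idx α ≤ k}.Finite := by
    intro k
    refine Set.Finite.of_finite_image (f := idx) ((finite_Iic k).subset ?_)
      (hidx.mono fun x hx => hx.1)
    rintro _ ⟨α, hα, rfl⟩
    exact hα.2
  refine ⟨fun β => 1 + max (e γ β) ((hfin (idx β)).toFinset.sup fun α => sym e α β), ?_⟩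
  intro α
  by_cases hα : α < γ
  · refine (hfin (idx α)).subset ?_
    rintro β ⟨hβ, hg⟩
    refine ⟨hγ β hβ, ?_⟩
    by_contra hcon
    push Not at hcon
    have hmem : α ∈ (hfin (idx β)).toFinset := by
      rw [Set.Finite.mem_toFinset]
      exact ⟨hα, hcon.le⟩
    have := Finset.le_sup (f := fun α => sym e α β) hmem
    dsimp only at this hg
    have h3 := le_max_right (e γ β) ((hfin (idx β)).toFinset.sup fun α => sym e α β)
    omega
  · rw [not_lt] at hα
    rcases hα.eq_or_lt with h | h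
    · subst h
      refine Set.finite_empty.subset ?_
      rintro β ⟨hβ, hg⟩
      have hlt := hγ β hβ
      rw [sym_comm, sym_of_lt e hlt] at hg
      dsimp only at hg
      have h3 := le_max_left (e γ β) ((hfin (idx β)).toFinset.sup fun α => sym e α β)
      exfalso
      omega
    · refine (he α γ h).subset ?_
      rintro β ⟨hβ, hg⟩
      have hlt := hγ β hβ
      refine ⟨hlt, ?_⟩
      rw [sym_comm, sym_of_lt e (hlt.trans h)] at hg
      dsimp only at hg
      have h3 := le_max_left (e γ β) ((hfin (idx β)).toFinset.sup fun α => sym e α β)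
      intro hE
      omega

/-- the bad set is countable (indeed finite) -/
theorem bad_finite (hc : ∀ a : W, (Iio a).Countable) {e : W → W → ℕ}
    (he : ∀ γ, FTO γ (e γ)) {G : Set W} (hG : ¬ G.Countable) (c : ℕ) :
    {β | {α | α ∈ G ∧ β < α ∧ c ≤ e α β}.Countable}.Finite := by
  by_contra hinf
  let b : ℕ ↪ {β | {α | α ∈ G ∧ β < α ∧ c ≤ e α β}.Countable} := Set.Infinite.natEmbedding _ hinf
  have h1 : ((⋃ n, {α | α ∈ G ∧ (b n).1 < α ∧ c ≤ e α (b n).1}) ∪
      ⋃ n, Iic (b n).1).Countable := by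
    refine Countable.union (countable_iUnion fun n => (b n).2) (countable_iUnion fun n => ?_)
    rw [← Iio_insert]
    exact (hc _).insert _
  obtain ⟨α, hαG, hα⟩ : ∃ α ∈ G, α ∉ ((⋃ n, {α | α ∈ G ∧ (b n).1 < α ∧ c ≤ e α (b n).1}) ∪
      ⋃ n, Iic (b n).1) := by
    by_contra hcon
    push Not at hcon
    exact hG (h1.mono hcon)
  rw [mem_union, not_or, mem_iUnion, mem_iUnion, not_exists, not_exists] at hα
  have h2 : ∀ n, (b n).1 < α := fun n => not_le.1 (hα.2 n)
  have h3 : ∀ n, e α (b n).1 < c := by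
    intro n
    by_contra hcon
    exact hα.1 n ⟨hαG, h2 n, not_lt.1 hcon⟩
  have h4 := he α c
  refine (Set.infinite_of_injective_forall_mem (f := fun n => (b n).1) ?_ ?_) h4
  · intro m n hmn
    exact b.injective (Subtype.ext hmn)
  · intro n
    exact ⟨h2 n, (h3 n).le⟩

end Pool.Agent.helper73.Coherent
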