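import Pool.Agent.helper73.Closed

set_option autoImplicit false
set_option linter.deprecated false

open Set Filter Cardinal Function
open Pool.Agent.helper73.Coherent (FTO Coh sym sym_comm sym_of_lt)

namespace Pool.Agent.helper73.TreeUltra

/-- The state of the recursive construction. -/
structure St (r : ℕ → W1 → ℕ) (c : D → ℕ → ℕ) where
  t : D
  G : D → ℕ → Set W1
  unc : ∀ t j, ¬ (G t j).Countable
  sub : ∀ t j, ∀ α ∈ G t j, tau α = t ∧ r j α = c t j

theorem link (e : W1 → W1 → ℕ) (he : ∀ γ, FTO γ (e γ)) (r : ℕ → W1 → ℕ)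
    (S : ℕ → W1 → Set D) (hS : ∀ n α, S n α ∈ aa α) :
    ∃ (α : ℕ → W1) (s : ℕ → D), (∀ n k, n < k → α n < α k) ∧
      (∀ n k, n ≠ k → r n (α n) ≤ sym e (α n) (α k)) ∧ (∀ n, s n ∈ S n (α n)) ∧
      (∀ n k, n < k → len (s n) < len (s k) ∧ ∀ i < len (s n), zz (s k) i = zz (s n) i) := by
  have hc : ∀ t j, ∃ c, ¬ {α | tau α = t ∧ r j α = c}.Countable := by
    intro t j
    by_contra hcon
    push Not at hcon
    apply tau_spec t
    refine (countable_iUnion hcon).mono ?_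
    intro α hα
    exact mem_iUnion.2 ⟨r j α, hα, rfl⟩
  choose c hc using hc
  have step : ∀ (n : ℕ) (σ : St r c), ∃ (α : W1) (s : D) (σ' : St r c),
      α ∈ σ.G σ.t n ∧ s ∈ S n α ∧ (len σ.t < len s ∧ ∀ i < len σ.t, zz s i = zz σ.t i) ∧
      σ'.t = s ∧ ∀ t j, σ'.G t j = {β | β ∈ σ.G t j ∧ α < β ∧ max (c t j) (c σ.t n) ≤ e β α} := by
    intro n σ
    have hbad : (⋃ t : D, ⋃ j : ℕ, ⋃ C : ℕ,
        {α | {β | β ∈ σ.G t j ∧ α < β ∧ C ≤ e β α}.Countable}).Countable :=
      countable_iUnion fun t => countable_iUnion fun j => countable_iUnion fun C =>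
        (Coherent.bad_finite W1_Iio he (σ.unc t j) C).countable
    obtain ⟨α, hα1, hα2⟩ : ∃ α ∈ σ.G σ.t n, α ∉ (⋃ t : D, ⋃ j : ℕ, ⋃ C : ℕ,
        {α | {β | β ∈ σ.G t j ∧ α < β ∧ C ≤ e β α}.Countable}) := by
      by_contra hcon
      push Not at hcon
      exact σ.unc σ.t n (hbad.mono hcon)
    simp only [mem_iUnion, not_exists] at hα2
    have h1 : S n α ∩ Cyl (xx α) (len σ.t + 1) ∈ aa α := inter_mem (hS n α) (aa_loc α _)
    obtain ⟨s, hs1, hs2⟩ := (aa α).nonempty_of_mem h1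
    refine ⟨α, s, ⟨s, fun t j => {β | β ∈ σ.G t j ∧ α < β ∧ max (c t j) (c σ.t n) ≤ e β α},
      fun t j => hα2 t j _, fun t j β hβ => σ.sub t j β hβ.1⟩, hα1, hs1, ⟨hs2.1, ?_⟩, rfl,
      fun t j => rfl⟩
    intro i hi
    rw [hs2.2 i (by omega)]
    have htau := (σ.sub _ _ α hα1).1
    rw [xx, htau, if_pos hi]
  choose αf sf σf h1 h2 h3 h4 h5 using step
  let σ0 : St r c := ⟨[], fun t j => {α | tau α = t ∧ r j α = c t j}, fun t j => hc t j,
    fun t j α hα => hα⟩
  let σ : ℕ → St r c := fun n => Nat.rec σ0 (fun n s => σf n s) n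
  have hσ : ∀ n, σ (n + 1) = σf n (σ n) := fun n => rfl
  have hmono : ∀ n k, n ≤ k → ∀ t j, (σ k).G t j ⊆ (σ n).G t j := by
    intro n k hnk
    induction hnk with
    | refl => intro t j; exact Subset.rfl
    | step _ ih =>
      intro t j
      refine Subset.trans ?_ (ih t j)
      rw [hσ, h5]
      exact fun β hβ => hβ.1
  have hG : ∀ n k, n < k → αf n (σ n) < αf k (σ k) ∧
      max (c (σ k).t k) (c (σ n).t n) ≤ e (αf k (σ k)) (αf n (σ n)) := by
    intro n k hnk
    have h6 := hmono (n + 1) k hnk _ _ (h1 k (σ k))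
    rw [hσ, h5] at h6
    exact h6.2
  have hrc : ∀ n, r n (αf n (σ n)) = c (σ n).t n := fun n => ((σ n).sub _ _ _ (h1 n (σ n))).2
  have hext : ∀ n k, n < k → len (sf n (σ n)) < len (sf k (σ k)) ∧
      ∀ i < len (sf n (σ n)), zz (sf k (σ k)) i = zz (sf n (σ n)) i := by
    intro n k hnk
    induction hnk with
    | refl =>
      have := h3 (n + 1) (σ (n + 1))
      rw [hσ, h4] at this
      exact this
    | step hle ih =>
      rename_i k
      have h7 := h3 (k + 1) (σ (k + 1))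
      have h8 : (σ (k + 1)).t = sf k (σ k) := by rw [hσ, h4]
      rw [h8] at h7
      refine ⟨ih.1.trans h7.1, fun i hi => ?_⟩
      rw [h7.2 i (hi.trans ih.1)]
      exact ih.2 i hi
  refine ⟨fun n => αf n (σ n), fun n => sf n (σ n), fun n k h => (hG n k h).1, ?_,
    fun n => h2 n (σ n), hext⟩
  intro n k hnk
  dsimp only
  rw [hrc]
  rcases lt_or_gt_of_ne hnk with h | h
  · have h6 := hG n k h
    rw [sym_of_lt e h6.1]
    exact (le_max_right _ _).trans h6.2
  · have h6 := hG k n h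
    rw [sym_comm, sym_of_lt e h6.1]
    exact (le_max_left _ _).trans h6.2

end Pool.Agent.helper73.TreeUltra
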