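import Mathlib

set_option autoImplicit false

open Set Filter Topology

namespace Pool.Agent.helper73.PerfectImageT1

/-- The star `st(x, G)` of a point with respect to a family `G` of sets: the union of all
members of `G` that contain `x`. -/
def starAt {X : Type*} (x : X) (G : Set (Set X)) : Set X := ⋃₀ {U | U ∈ G ∧ x ∈ U}

/-- `X` is a wΔ-space: there is a sequence of open covers `G 0, G 1, ...` such that for every
point `x` every sequence `u` with `u n ∈ st(x, G n)` for all `n` has a cluster point. -/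
def IsWDelta (X : Type*) [TopologicalSpace X] : Prop :=
  ∃ G : ℕ → Set (Set X), (∀ n, ∀ U ∈ G n, IsOpen U) ∧ (∀ n, ⋃₀ G n = univ) ∧
    ∀ x : X, ∀ u : ℕ → X, (∀ n, u n ∈ starAt x (G n)) → ∃ y, MapClusterPt y atTop u

/-- `f` is a perfect map: continuous, closed, surjective, with compact fibres. -/
def IsPerfect {X Y : Type*} [TopologicalSpace X] [TopologicalSpace Y] (f : X → Y) : Prop :=
  Continuous f ∧ IsClosedMap f ∧ Function.Surjective f ∧ ∀ y, IsCompact (f ⁻¹' {y})

/-! ### The points -/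

/-- Points of the space: finite nodes `z | m` of the binary tree, names, branches. -/
inductive Pt : Type
  | node (z : ℕ → Bool) (m : ℕ) : Pt
  | nm (x : ℕ → Bool) (f : ℕ → Pt) : Pt
  | pt (y : ℕ → Bool) : Pt

/-- the branch over which a point lies -/
def br : Pt → ℕ → Bool
  | .node z _ => z
  | .nm x _ => x
  | .pt y => y

/-- the point is a node of length at least `k`, or a name -/
def Long (k : ℕ) : Pt → Prop
  | .node _ m => k ≤ m
  | .nm _ _ => True
  | .pt _ => False

/-- the point `p` leaves the branch `x` exactly at level `j` -/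
def OffAt (x : ℕ → Bool) (p : Pt) (j : ℕ) : Prop :=
  (∀ i < j, br p i = x i) ∧ br p j ≠ x j ∧ Long (j + 1) p

/-- `nm x f` is a good name -/
def Good (x : ℕ → Bool) (f : ℕ → Pt) : Prop :=
  ∃ m : ℕ → ℕ, StrictMono m ∧ ∀ n, OffAt x (f n) (m n)

lemma Long.mono {k l : ℕ} (h : k ≤ l) {p : Pt} (hp : Long l p) : Long k p := by
  cases p with
  | node z m => exact le_trans h hp
  | nm x f => trivial
  | pt y => exact hp

lemma OffAt.unique {x : ℕ → Bool} {p : Pt} {j k : ℕ} (h1 : OffAt x p j) (h2 : OffAt x p k) :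
    j = k := by
  rcases lt_trichotomy j k with h | h | h
  · exact absurd (h2.1 j h) h1.2.1
  · exact h
  · exact absurd (h1.1 k h) h2.2.1

/-- the requirement that a set `U` puts on a sequence member -/
def Cont (U : Set Pt) (p : Pt) : Prop :=
  p ∈ U ∧ ∀ z m, p = Pt.node z m → ∀ y : ℕ → Bool, (∀ i < m, y i = z i) → Pt.pt y ∈ U

instance : TopologicalSpace Pt where
  IsOpen U := ∀ x f, Good x f → Pt.nm x f ∈ U → ∀ᶠ n in atTop, Cont U (f n)
  isOpen_univ := by
    intro x f _ _
    exact Eventually.of_forall fun n => ⟨mem_univ _, fun _ _ _ _ _ => mem_univ _⟩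
  isOpen_inter := by
    intro U V hU hV x f hg hm
    filter_upwards [hU x f hg hm.1, hV x f hg hm.2] with n h1 h2
    exact ⟨⟨h1.1, h2.1⟩, fun z m hz y hy => ⟨h1.2 z m hz y hy, h2.2 z m hz y hy⟩⟩
  isOpen_sUnion := by
    intro S hS x f hg hm
    obtain ⟨U, hU, hxU⟩ := hm
    filter_upwards [hS U hU x f hg hxU] with n h1
    exact ⟨⟨U, hU, h1.1⟩, fun z m hz y hy => ⟨U, hU, h1.2 z m hz y hy⟩⟩

lemma isOpen_iff' {U : Set Pt} :
    IsOpen U ↔ ∀ x f, Good x f → Pt.nm x f ∈ U → ∀ᶠ n in atTop, Cont U (f n) := Iff.rfl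

/-- The tree-like neighbourhoods. -/
inductive G : Pt → ℕ → Pt → Prop
  | self (τ : Pt) (k : ℕ) : G τ k τ
  | step {x : ℕ → Bool} {f : ℕ → Pt} {k n j : ℕ} {p : Pt} (hg : Good x f) (hk : k ≤ j)
      (ho : OffAt x (f n) j) (hp : G (f n) (j + 1) p) : G (.nm x f) k p

lemma G.br_eq {τ : Pt} {k : ℕ} {p : Pt} (h : G τ k p) : ∀ i < k, br p i = br τ i := by
  induction h with
  | self τ k => intro i _; rfl
  | @step x f k n j p hg hk ho hp ih =>
    intro i hi
    rw [ih i (by omega)]
    exact ho.1 i (by omega)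

lemma G.long {τ : Pt} {k : ℕ} {p : Pt} (h : G τ k p) (hτ : Long k τ) : Long k p := by
  induction h with
  | self τ k => exact hτ
  | @step x f k n j p hg hk ho hp ih =>
    exact (ih ho.2.2).mono (by omega)

lemma offAt_of_G {x : ℕ → Bool} {q p : Pt} {j : ℕ} (ho : OffAt x q j) (hp : G q (j + 1) p) :
    OffAt x p j := by
  refine ⟨fun i hi => ?_, ?_, hp.long ho.2.2⟩
  · rw [hp.br_eq i (by omega)]
    exact ho.1 i hi
  · rw [hp.br_eq j (by omega)]
    exact ho.2.1

lemma incomp_of_offAt {x : ℕ → Bool} {p q : Pt} {j k : ℕ} (hp : OffAt x p j) (hq : OffAt x q k)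
    (h : j < k) : ∃ i, br p i ≠ br q i ∧ Long (i + 1) p ∧ Long (i + 1) q := by
  refine ⟨j, ?_, hp.2.2, hq.2.2.mono (by omega)⟩
  rw [hq.1 j h]
  exact hp.2.1

lemma G.incomp {τ : Pt} {k : ℕ} {p : Pt} (hp : G τ k p) :
    ∀ q, G τ k q → p ≠ q → ∃ i, br p i ≠ br q i ∧ Long (i + 1) p ∧ Long (i + 1) q := by
  induction hp with
  | self τ k =>
    intro q hq hne
    cases hq with
    | self => exact absurd rfl hne
    | step hg hk ho hp =>
      have := offAt_of_G ho hp
      exact ⟨_, fun h => this.2.1 h.symm, trivial, this.2.2⟩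
  | @step x f k n j p hg hk ho hp ih =>
    intro q hq hne
    have h1 := offAt_of_G ho hp
    cases hq with
    | self => exact ⟨_, h1.2.1, h1.2.2, trivial⟩
    | @step _ _ _ n' j' _ hg' hk' ho' hp' =>
      have h2 := offAt_of_G ho' hp'
      rcases lt_trichotomy j j' with h | h | h
      · exact incomp_of_offAt h1 h2 h
      · subst h
        obtain ⟨m, hm, hmo⟩ := hg
        have e1 := (hmo n).unique ho
        have e2 := (hmo n').unique ho'
        have : n = n' := hm.injective (e1.trans e2.symm)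
        subst this
        exact ih q hp' hne
      · obtain ⟨i, hi1, hi2, hi3⟩ := incomp_of_offAt h2 h1 h
        exact ⟨i, fun h => hi1 h.symm, hi3, hi2⟩

lemma G.eventually {τ : Pt} {k : ℕ} {σ : Pt} (h : G τ k σ) :
    ∀ x f, σ = .nm x f → Good x f → ∀ᶠ n in atTop, G τ k (f n) := by
  induction h with
  | self τ k =>
    intro x f hσ hg
    subst hσ
    obtain ⟨m, hm, hmo⟩ := id hg
    filter_upwards [eventually_ge_atTop k] with n hn
    exact G.step hg (le_trans hn (hm.id_le n)) (hmo n) (G.self _ _)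
  | @step x f k n j p hg hk ho hp ih =>
    intro x' f' hσ hg'
    filter_upwards [ih x' f' hσ hg'] with l hl
    exact G.step hg hk ho hl

/-- the open neighbourhoods -/
def N (τ : Pt) (k : ℕ) : Set Pt :=
  {p | G τ k p ∨ ∃ y z m, p = .pt y ∧ G τ k (.node z m) ∧ ∀ i < m, y i = z i}

lemma N_open (τ : Pt) (k : ℕ) : IsOpen (N τ k) := by
  rw [isOpen_iff']
  intro x f hg hx
  have hx' : G τ k (.nm x f) := by
    rcases hx with h | ⟨y, z, m, h, _⟩
    · exact h
    · cases h
  filter_upwards [hx'.eventually x f rfl hg] with n hn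
  refine ⟨Or.inl hn, fun z m hz y hy => Or.inr ⟨y, z, m, rfl, ?_, hy⟩⟩
  rw [← hz]
  exact hn

lemma self_mem_N (τ : Pt) (k : ℕ) : τ ∈ N τ k := Or.inl (G.self τ k)

/-- The subspace without the branches. -/
def S₂ : Set Pt := {p | ∀ y, p ≠ .pt y}
/-- The subspace without the nodes. -/
def S₁ : Set Pt := {p | ∀ z m, p ≠ .node z m}

lemma nm_mem_S₂ (x : ℕ → Bool) (f : ℕ → Pt) : Pt.nm x f ∈ S₂ := fun _ => Pt.noConfusion
lemma nm_mem_S₁ (x : ℕ → Bool) (f : ℕ → Pt) : Pt.nm x f ∈ S₁ := fun _ _ => Pt.noConfusion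

/-- `q` represents `p` in the cover sets. -/
def Rep (p q : Pt) : Prop :=
  p = q ∨ ∃ y z m, p = .pt y ∧ q = .node z m ∧ ∀ i < m, y i = z i

/-- Extraction of a name which is a cluster point. -/
lemma extract (x : ℕ → Bool) (w : ℕ → Pt) (K : ℕ)
    (h : ∀ k, K ≤ k → ∃ q j, k ≤ j ∧ Rep (w k) q ∧ OffAt x q j) :
    ∃ f, MapClusterPt (Pt.nm x f) atTop w := by
  have h' : ∀ k, ∃ q j, K + k ≤ j ∧ Rep (w (K + k)) q ∧ OffAt x q j :=
    fun k => h (K + k) (Nat.le_add_right _ _)
  choose q j hj hr ho using h'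
  have ht : Tendsto j atTop atTop :=
    tendsto_atTop_mono (fun n => le_trans (Nat.le_add_left n K) (hj n)) tendsto_id
  obtain ⟨φ, hφ, hφ2⟩ := Filter.strictMono_subseq_of_tendsto_atTop ht
  have hg : Good x (fun i => q (φ i)) := ⟨fun i => j (φ i), hφ2, fun n => ho (φ n)⟩
  refine ⟨fun i => q (φ i), ?_⟩
  have ht2 : Tendsto (fun i => K + φ i) atTop atTop :=
    tendsto_atTop_mono (fun n => Nat.le_add_left _ _) hφ.tendsto_atTop
  refine MapClusterPt.of_comp ht2 (Tendsto.mapClusterPt ?_)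
  rw [tendsto_nhds]
  intro U hU hm
  filter_upwards [hU x _ hg hm] with i hi
  change w (K + φ i) ∈ U
  rcases hr (φ i) with h1 | ⟨y, z, m, h1, h2, h3⟩
  · rw [h1]
    exact hi.1
  · rw [h1]
    exact hi.2 z m h2 y h3

/-- the first level at which two distinct branches differ -/
lemma first_diff {x y : ℕ → Bool} {i : ℕ} (h : x i ≠ y i) :
    ∃ j ≤ i, (∀ l < j, x l = y l) ∧ x j ≠ y j := by
  classical
  have hex : ∃ i, x i ≠ y i := ⟨i, h⟩
  refine ⟨Nat.find hex, Nat.find_min' hex h, fun l hl => ?_, Nat.find_spec hex⟩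
  have := Nat.find_min hex hl
  push Not at this
  exact this

lemma rep_br {p q : Pt} (h : Rep p q) {i : ℕ} (hi : Long (i + 1) q) : br p i = br q i := by
  rcases h with h | ⟨y, z, m, rfl, rfl, h3⟩
  · rw [h]
  · exact h3 i hi

lemma mem_N_iff {τ p : Pt} {k : ℕ} (h : p ∈ N τ k) : ∃ q, Rep p q ∧ G τ k q := by
  rcases h with h | ⟨y, z, m, h1, h2, h3⟩
  · exact ⟨p, Or.inl rfl, h⟩
  · exact ⟨_, Or.inr ⟨y, z, m, h1, rfl, h3⟩, h2⟩

lemma G_pt {y : ℕ → Bool} {k : ℕ} {p : Pt} (h : G (.pt y) k p) : p = .pt y := by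
  cases h
  rfl

/-- A general criterion for the subspaces. -/
lemma wdelta_of (S : Set Pt) (hS : ∀ x f, Pt.nm x f ∈ S)
    (h : ∀ k, ∀ τ ∈ S, ∀ z ∈ S, ∀ w ∈ S, z ∈ N τ k → w ∈ N τ k → z ≠ w →
      ∃ q j, k ≤ j ∧ Rep w q ∧ OffAt (br z) q j) : IsWDelta S := by
  refine ⟨fun k => {U | ∃ τ ∈ S, U = Subtype.val ⁻¹' (N τ k)}, ?_, ?_, ?_⟩
  · rintro k U ⟨τ, _, rfl⟩
    exact (N_open τ k).preimage continuous_subtype_val
  · intro k
    refine eq_univ_of_forall fun p => ?_
    exact ⟨_, ⟨p.1, p.2, rfl⟩, self_mem_N p.1 k⟩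
  · intro z w hw
    by_cases hfr : ∃ᶠ k in atTop, w k = z
    · refine ⟨z, ?_⟩
      rw [mapClusterPt_iff_frequently]
      intro U hU
      exact hfr.mono fun k hk => by rw [hk]; exact mem_of_mem_nhds hU
    · rw [not_frequently] at hfr
      obtain ⟨K, hK⟩ := eventually_atTop.1 hfr
      have key : ∀ k, K ≤ k → ∃ q j, k ≤ j ∧ Rep (w k).1 q ∧ OffAt (br z.1) q j := by
        intro k hk
        obtain ⟨U, ⟨⟨τ, hτ, rfl⟩, hz⟩, hwU⟩ := hw k
        exact h k τ hτ z.1 z.2 (w k).1 (w k).2 hz hwU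
          (fun e => hK k hk (Subtype.ext e.symm))
      obtain ⟨f, hf⟩ := extract (br z.1) (fun k => (w k).1) K key
      refine ⟨⟨Pt.nm (br z.1) f, hS _ f⟩, ?_⟩
      have hind : IsInducing (Subtype.val : S → Pt) := IsInducing.subtypeVal
      rw [mapClusterPt_iff_frequently] at hf ⊢
      intro U hU
      rw [hind.nhds_eq_comap] at hU
      obtain ⟨V, hV, hVU⟩ := hU
      exact (hf V hV).mono fun k hk => hVU hk

lemma wdelta_S₂ : IsWDelta S₂ := by
  refine wdelta_of S₂ nm_mem_S₂ ?_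
  intro k τ hτ z hz w hw hzN hwN hne
  have hz' : G τ k z := by
    rcases hzN with h | ⟨y, _, _, h, _⟩
    · exact h
    · exact absurd h (hz y)
  have hw' : G τ k w := by
    rcases hwN with h | ⟨y, _, _, h, _⟩
    · exact h
    · exact absurd h (hw y)
  obtain ⟨i, hi, hi1, hi2⟩ := hz'.incomp w hw' hne
  obtain ⟨j, hj, hj1, hj2⟩ := first_diff hi
  refine ⟨w, j, ?_, Or.inl rfl, fun l hl => (hj1 l hl).symm, fun e => hj2 e.symm,
    hi2.mono (by omega)⟩
  by_contra hlt
  push Not at hlt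
  exact hj2 ((hz'.br_eq j hlt).trans (hw'.br_eq j hlt).symm)

lemma wdelta_S₁ : IsWDelta S₁ := by
  refine wdelta_of S₁ nm_mem_S₁ ?_
  intro k τ hτ z hz w hw hzN hwN hne
  obtain ⟨z', hrz, hz'⟩ := mem_N_iff hzN
  obtain ⟨w', hrw, hw'⟩ := mem_N_iff hwN
  cases τ with
  | node z m => exact absurd rfl (hτ z m)
  | pt y =>
    have e1 := G_pt hz'
    have e2 := G_pt hw'
    exfalso
    apply hne
    have h1 : z = .pt y := by
      rcases hrz with h | ⟨_, _, _, _, h, _⟩
      · rw [h, e1]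
      · rw [e1] at h
        cases h
    have h2 : w = .pt y := by
      rcases hrw with h | ⟨_, _, _, _, h, _⟩
      · rw [h, e2]
      · rw [e2] at h
        cases h
    rw [h1, h2]
  | nm x f =>
    have hdiff : ∃ i, br z i ≠ br w i := by
      by_cases hzw : z' = w'
      · subst hzw
        rcases hrz with h | ⟨y, u, m, h1, h2, h3⟩
        · rcases hrw with h' | ⟨y', u', m', h1', h2', h3'⟩
          · exact absurd (h.trans h'.symm) hne
          · exact absurd (h.trans h2') (hz u' m')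
        · rcases hrw with h' | ⟨y', u', m', h1', h2', h3'⟩
          · exact absurd (h'.trans h2) (hw u m)
          · subst h1 h1'
            by_contra hall
            push Not at hall
            apply hne
            congr 1
            exact funext hall
      · obtain ⟨i, hi, hi1, hi2⟩ := hz'.incomp w' hw' hzw
        refine ⟨i, ?_⟩
        rw [rep_br hrz hi1, rep_br hrw hi2]
        exact hi
    obtain ⟨i, hi⟩ := hdiff
    obtain ⟨j, hj, hj1, hj2⟩ := first_diff hi
    have hkj : k ≤ j := by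
      by_contra hlt
      push Not at hlt
      have l1 : Long (j + 1) z' := (hz'.long trivial).mono hlt
      have l2 : Long (j + 1) w' := (hw'.long trivial).mono hlt
      apply hj2
      rw [rep_br hrz l1, rep_br hrw l2, hz'.br_eq j hlt, hw'.br_eq j hlt]
    cases w with
    | node u m => exact absurd rfl (hw u m)
    | nm x' f' =>
      exact ⟨_, j, hkj, Or.inl rfl, fun l hl => (hj1 l hl).symm, fun e => hj2 e.symm, trivial⟩
    | pt y =>
      exact ⟨.node y (j + 1), j, hkj, Or.inr ⟨y, y, j + 1, rfl, rfl, fun _ _ => rfl⟩,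
        fun l hl => (hj1 l hl).symm, fun e => hj2 e.symm, le_refl (j + 1)⟩

/-! ### Separation -/

instance : T1Space Pt := by
  refine ⟨fun p => ?_⟩
  rw [← isOpen_compl_iff, isOpen_iff']
  intro x f hg hx
  obtain ⟨m, hm, hmo⟩ := id hg
  have h1 : ∀ᶠ n in atTop, f n ≠ p := by
    by_cases hex : ∃ n, f n = p
    · obtain ⟨n₀, hn₀⟩ := hex
      filter_upwards [eventually_gt_atTop n₀] with n hn e
      have := hmo n
      rw [e, ← hn₀] at this
      exact absurd (this.unique (hmo n₀)) (hm hn).ne'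
    · push Not at hex
      exact Eventually.of_forall hex
  have h2 : ∀ᶠ n in atTop, ∀ z l, f n = Pt.node z l → ∀ y : ℕ → Bool, (∀ i < l, y i = z i) →
      Pt.pt y ≠ p := by
    cases p with
    | node z l => exact Eventually.of_forall fun n z l _ y _ => Pt.noConfusion
    | nm x' f' => exact Eventually.of_forall fun n z l _ y _ => Pt.noConfusion
    | pt y' =>
      by_cases hxy : x = y'
      · refine Eventually.of_forall fun n z l hz y hy e => ?_
        injection e with e
        have h3 := hmo n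
        rw [hz] at h3
        have h4 : y (m n) = z (m n) := hy (m n) h3.2.2
        apply h3.2.1
        change z (m n) = x (m n)
        rw [← h4, e, hxy]
      · have : ∃ i, x i ≠ y' i := by
          by_contra hall
          push Not at hall
          exact hxy (funext hall)
        obtain ⟨i, hi⟩ := this
        filter_upwards [eventually_gt_atTop i] with n hn z l hz y hy e
        injection e with e
        have h3 := hmo n
        rw [hz] at h3
        have hin : i < m n := lt_of_lt_of_le hn (hm.id_le n)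
        have h5 : m n + 1 ≤ l := h3.2.2
        have h4 : y i = z i := hy i (by omega)
        apply hi
        rw [← e, h4]
        exact (h3.1 i hin).symm
  filter_upwards [h1, h2] with n hn1 hn2
  exact ⟨hn1, fun z l hz y hy => hn2 z l hz y hy⟩

lemma isOpen_of_no_nm {U : Set Pt} (h : ∀ x f, Pt.nm x f ∉ U) : IsOpen U :=
  fun x f _ hx => absurd hx (h x f)

lemma isClosed_S₂ : IsClosed S₂ := by
  rw [← isOpen_compl_iff]
  exact isOpen_of_no_nm fun x f h => h (nm_mem_S₂ x f)

lemma isClosed_S₁ : IsClosed S₁ := by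
  rw [← isOpen_compl_iff]
  exact isOpen_of_no_nm fun x f h => h (nm_mem_S₁ x f)

lemma union_eq : S₁ ∪ S₂ = univ := by
  refine eq_univ_of_forall fun p => ?_
  cases p with
  | node z m => exact Or.inr fun _ => Pt.noConfusion
  | nm x f => exact Or.inl (nm_mem_S₁ x f)
  | pt y => exact Or.inl fun _ _ => Pt.noConfusion

/-! ### The whole space is not a wΔ-space -/

/-- The standard leaf name over a branch. -/
def leaf (x : ℕ → Bool) (n : ℕ) : Pt := .node (Function.update x n (!x n)) (n + 1)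

lemma leaf_offAt (x : ℕ → Bool) (n : ℕ) : OffAt x (leaf x n) n := by
  refine ⟨fun i hi => ?_, ?_, le_refl (n + 1)⟩
  · change Function.update x n (!x n) i = x i
    rw [Function.update_of_ne hi.ne]
  · change Function.update x n (!x n) n ≠ x n
    rw [Function.update_self]
    cases x n <;> simp

lemma leaf_good (x : ℕ → Bool) : Good x (leaf x) := ⟨id, strictMono_id, leaf_offAt x⟩

theorem not_wdelta : ¬ IsWDelta Pt := by
  rintro ⟨H, hopen, hcov, hH⟩
  let V : ℕ → Set (ℕ → Bool) := fun k =>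
    {x | ∃ z m, k ≤ m ∧ (∀ i < m, x i = z i) ∧ ∃ U ∈ H k, Pt.node z m ∈ U ∧
      ∀ y : ℕ → Bool, (∀ i < m, y i = z i) → Pt.pt y ∈ U}
  have hVo : ∀ k, IsOpen (V k) := by
    intro k
    rw [isOpen_iff_forall_mem_open]
    rintro x ⟨z, m, hk, hx, U, hU, hzU, hy⟩
    refine ⟨PiNat.cylinder z m, ?_, PiNat.isOpen_cylinder _ z m, hx⟩
    intro x' hx'
    exact ⟨z, m, hk, hx', U, hU, hzU, hy⟩
  have hVd : ∀ k, Dense (V k) := by
    intro k
    rw [(PiNat.isTopologicalBasis_cylinders (fun _ : ℕ => Bool)).dense_iff]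
    rintro o ⟨x, l, rfl⟩ -
    have hx : Pt.nm x (leaf x) ∈ ⋃₀ H k := by rw [hcov k]; trivial
    obtain ⟨U, hU, hxU⟩ := hx
    have hev := hopen k U hU x (leaf x) (leaf_good x) hxU
    obtain ⟨n, hn1, hn2⟩ := (hev.and (eventually_ge_atTop (max k l))).exists
    refine ⟨Function.update x n (!x n), ?_, ?_⟩
    · intro i hi
      have : i < n := lt_of_lt_of_le hi (le_trans (le_max_right _ _) hn2)
      exact (leaf_offAt x n).1 i this
    · refine ⟨Function.update x n (!x n), n + 1, ?_, fun _ _ => rfl, U, hU, hn1.1,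
        fun y hy => hn1.2 _ _ rfl y hy⟩
      have := le_trans (le_max_left k l) hn2
      omega
  have hd : Dense (⋂ k, V k) := dense_iInter_of_isOpen_nat hVo hVd
  obtain ⟨x, hx⟩ := hd.nonempty
  rw [mem_iInter] at hx
  choose z m hkm hxz U hU hzU hy using hx
  obtain ⟨y, hcl⟩ := hH (Pt.pt x) (fun k => Pt.node (z k) (m k))
    (fun k => ⟨U k, ⟨hU k, hy k x (hxz k)⟩, hzU k⟩)
  rw [mapClusterPt_iff_frequently] at hcl
  have hfr := hcl (N y 0) ((N_open y 0).mem_nhds (self_mem_N y 0))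
  have hG : ∀ k, Pt.node (z k) (m k) ∈ N y 0 → G y 0 (Pt.node (z k) (m k)) := by
    rintro k (h | ⟨_, _, _, h, _⟩)
    · exact h
    · cases h
  obtain ⟨k₀, hk₀⟩ := hfr.exists
  obtain ⟨k₁, hk₁, hk₁'⟩ := (hfr.and_eventually (eventually_gt_atTop (m k₀))).exists
  have g0 := hG k₀ hk₀
  have g1 := hG k₁ hk₁
  have hne : Pt.node (z k₀) (m k₀) ≠ Pt.node (z k₁) (m k₁) := by
    intro e
    injection e with _ e
    have := hkm k₁
    omega
  obtain ⟨i, hi, hi1, hi2⟩ := g0.incomp _ g1 hne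
  apply hi
  change z k₀ i = z k₁ i
  have e1 : i < m k₀ := hi1
  have e2 : i < m k₁ := hi2
  rw [← hxz k₀ i e1, ← hxz k₁ i e2]

/-! ### The map -/

lemma IsWDelta.sum {X Y : Type} [TopologicalSpace X] [TopologicalSpace Y]
    (hX : IsWDelta X) (hY : IsWDelta Y) : IsWDelta (X ⊕ Y) := by
  obtain ⟨G₁, ho₁, hc₁, h₁⟩ := hX
  obtain ⟨G₂, ho₂, hc₂, h₂⟩ := hY
  refine ⟨fun n => {U | (∃ V ∈ G₁ n, U = Sum.inl '' V) ∨ ∃ V ∈ G₂ n, U = Sum.inr '' V},
    ?_, ?_, ?_⟩
  · rintro n U (⟨V, hV, rfl⟩ | ⟨V, hV, rfl⟩)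
    · exact isOpenMap_inl V (ho₁ n V hV)
    · exact isOpenMap_inr V (ho₂ n V hV)
  · intro n
    refine eq_univ_of_forall fun p => ?_
    rcases p with p | p
    · have : p ∈ ⋃₀ G₁ n := by rw [hc₁ n]; trivial
      obtain ⟨V, hV, hp⟩ := this
      exact ⟨_, Or.inl ⟨V, hV, rfl⟩, p, hp, rfl⟩
    · have : p ∈ ⋃₀ G₂ n := by rw [hc₂ n]; trivial
      obtain ⟨V, hV, hp⟩ := this
      exact ⟨_, Or.inr ⟨V, hV, rfl⟩, p, hp, rfl⟩
  · intro p u hu
    rcases p with p | p
    · have : ∀ n, ∃ v, u n = Sum.inl v ∧ v ∈ starAt p (G₁ n) := by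
        intro n
        obtain ⟨U, ⟨⟨V, hV, rfl⟩ | ⟨V, hV, rfl⟩, hp⟩, huU⟩ := hu n
        · obtain ⟨v, hv, hv'⟩ := huU
          obtain ⟨p', hp', e⟩ := hp
          injection e with e
          subst e
          exact ⟨v, hv'.symm, V, ⟨hV, hp'⟩, hv⟩
        · obtain ⟨p', hp', e⟩ := hp
          cases e
      choose v hv hv' using this
      obtain ⟨y, hy⟩ := h₁ p v hv'
      refine ⟨Sum.inl y, ?_⟩
      have e : u = Sum.inl ∘ v := funext hv
      rw [e]
      exact hy.continuousAt_comp continuous_inl.continuousAt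
    · have : ∀ n, ∃ v, u n = Sum.inr v ∧ v ∈ starAt p (G₂ n) := by
        intro n
        obtain ⟨U, ⟨⟨V, hV, rfl⟩ | ⟨V, hV, rfl⟩, hp⟩, huU⟩ := hu n
        · obtain ⟨p', hp', e⟩ := hp
          cases e
        · obtain ⟨v, hv, hv'⟩ := huU
          obtain ⟨p', hp', e⟩ := hp
          injection e with e
          subst e
          exact ⟨v, hv'.symm, V, ⟨hV, hp'⟩, hv⟩
      choose v hv hv' using this
      obtain ⟨y, hy⟩ := h₂ p v hv'
      refine ⟨Sum.inr y, ?_⟩
      have e : u = Sum.inr ∘ v := funext hv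
      rw [e]
      exact hy.continuousAt_comp continuous_inr.continuousAt

/-- The natural map from the disjoint sum of two subspaces. -/
def glue {Y : Type} (A B : Set Y) : A ⊕ B → Y := Sum.elim Subtype.val Subtype.val

lemma glue_perfect {Y : Type} [TopologicalSpace Y] {A B : Set Y} (hA : IsClosed A)
    (hB : IsClosed B) (hAB : A ∪ B = univ) : IsPerfect (glue A B) := by
  refine ⟨?_, ?_, ?_, ?_⟩
  · exact continuous_subtype_val.sumElim continuous_subtype_val
  · intro C hC
    have e : glue A B '' C = Subtype.val '' (Sum.inl ⁻¹' C : Set A) ∪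
        Subtype.val '' (Sum.inr ⁻¹' C : Set B) := by
      ext y
      constructor
      · rintro ⟨p | p, hp, rfl⟩
        · exact Or.inl ⟨p, hp, rfl⟩
        · exact Or.inr ⟨p, hp, rfl⟩
      · rintro (⟨p, hp, rfl⟩ | ⟨p, hp, rfl⟩)
        · exact ⟨Sum.inl p, hp, rfl⟩
        · exact ⟨Sum.inr p, hp, rfl⟩
    rw [e]
    exact (hA.isClosedMap_subtype_val _ (hC.preimage continuous_inl)).union
      (hB.isClosedMap_subtype_val _ (hC.preimage continuous_inr))
  · intro y
    have : y ∈ A ∪ B := by rw [hAB]; trivial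
    rcases this with h | h
    · exact ⟨Sum.inl ⟨y, h⟩, rfl⟩
    · exact ⟨Sum.inr ⟨y, h⟩, rfl⟩
  · intro y
    apply Set.Finite.isCompact
    have hfin1 : (Subtype.val ⁻¹' {y} : Set A).Finite :=
      (Set.finite_singleton y).preimage Subtype.val_injective.injOn
    have hfin2 : (Subtype.val ⁻¹' {y} : Set B).Finite :=
      (Set.finite_singleton y).preimage Subtype.val_injective.injOn
    refine ((hfin1.image Sum.inl).union (hfin2.image Sum.inr)).subset ?_
    rintro (p | p) hp
    · exact Or.inl ⟨p, hp, rfl⟩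
    · exact Or.inr ⟨p, hp, rfl⟩

lemma t1_sum {X Y : Type} [TopologicalSpace X] [TopologicalSpace Y] [T1Space X] [T1Space Y] :
    T1Space (X ⊕ Y) := by
  refine ⟨fun p => ?_⟩
  rcases p with p | p
  · have e : ({Sum.inl p} : Set (X ⊕ Y)) = Sum.inl '' {p} := by simp
    rw [e]
    exact IsClosedEmbedding.inl.isClosedMap _ isClosed_singleton
  · have e : ({Sum.inr p} : Set (X ⊕ Y)) = Sum.inr '' {p} := by simp
    rw [e]
    exact IsClosedEmbedding.inr.isClosedMap _ isClosed_singleton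

/-- A perfect image of a wΔ-space need not be a wΔ-space: there is a `T₁` wΔ-space `X` and a
perfect map `f` from `X` onto a `T₁`-space `Y` which is not a wΔ-space. -/
theorem result : ∃ (X Y : Type) (_ : TopologicalSpace X) (_ : TopologicalSpace Y) (f : X → Y),
    T1Space X ∧ T1Space Y ∧ IsWDelta X ∧ IsPerfect f ∧ ¬ IsWDelta Y :=
  ⟨S₁ ⊕ S₂, Pt, inferInstance, inferInstance, glue S₁ S₂, t1_sum, inferInstance,
    wdelta_S₁.sum wdelta_S₂, glue_perfect isClosed_S₁ isClosed_S₂ union_eq, not_wdelta⟩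

end Pool.Agent.helper73.PerfectImageT1
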