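import Mathlib

set_option autoImplicit false
set_option linter.deprecated false

open Set Cardinal

namespace Pool.Agent.helper73.Recur

/-- a well order of length continuum -/
abbrev Om : Type := (Cardinal.continuum.{0}).ord.ToType

lemma mk_Om : #Om = continuum := Cardinal.mk_ord_toType _

lemma mk_Iio_lt (a : Om) : #(Iio a) < continuum := by
  exact Cardinal.mk_Iio_toType_ord_lt a

lemma mk_Iic_lt (a : Om) : #(Iic a) < continuum := by
  rw [← Iio_insert]
  refine lt_of_le_of_lt (Cardinal.mk_insert_le) ?_
  exact Cardinal.add_lt_of_lt Cardinal.aleph0_le_continuum (mk_Iio_lt a)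
    (lt_of_lt_of_le Cardinal.one_lt_aleph0 Cardinal.aleph0_le_continuum)

lemma exists_bound (f : ℕ → Om) : ∃ γ, ∀ n, f n < γ := by
  by_contra hcon
  push Not at hcon
  have h1 : (univ : Set Om) ⊆ ⋃ n, Iic (f n) := by
    intro γ _
    obtain ⟨n, hn⟩ := hcon γ
    exact mem_iUnion.2 ⟨n, hn⟩
  have h2 : #Om ≤ Cardinal.sum fun n => #(Iic (f n)) := by
    calc #Om = #(univ : Set Om) := mk_univ.symm
      _ ≤ #(⋃ n, Iic (f n)) := mk_le_mk_of_subset h1
      _ ≤ _ := mk_iUnion_le_sum_mk
  have h3 : (Cardinal.sum fun n => #(Iic (f n))) < Cardinal.prod fun _ : ℕ => continuum.{0} :=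
    Cardinal.sum_lt_prod _ _ fun n => mk_Iic_lt (f n)
  rw [Cardinal.prod_const] at h3
  simp only [mk_nat, lift_aleph0, lift_continuum, continuum_power_aleph0] at h3
  rw [mk_Om] at h2
  exact absurd (lt_of_le_of_lt h2 h3) (lt_irrefl _)

variable {P K ι : Type}

/-- `p` is the sequence of values coded by `s` -/
def Val (base : ι → P) (s : ℕ → ι ⊕ Om) (q : Om → Option P) (p : ℕ → P) : Prop :=
  ∀ n, (∀ i, s n = Sum.inl i → p n = base i) ∧ (∀ β, s n = Sum.inr β → q β = some (p n))

/-- admissible choice at a stage -/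
def Phi (κ : P → K) (base : ι → P) (C : (ℕ → P) → Set P) (s : ℕ → ι ⊕ Om) (q : Om → Option P)
    (v : P) : Prop :=
  ∃ p, Val base s q p ∧ v ∈ C p ∧ ∀ β w, q β = some w → κ w ≠ κ v

open Classical in
/-- one stage of the recursion -/
noncomputable def stage (κ : P → K) (base : ι → P) (C : (ℕ → P) → Set P)
    (b : Om → ℕ → ι ⊕ Om) (α : Om) (prev : ∀ β, β < α → Option P) : Option P :=
  if h : ∃ v, Phi κ base C (b α) (fun β => if h : β < α then prev β h else none) v
  then some h.choose else none

theorem exists_family (κ : P → K) (base : ι → P) (hι : #ι ≤ continuum) (C : (ℕ → P) → Set P) :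
    ∃ A : Set P, InjOn κ A ∧ (∀ a ∈ A, ∃ p, a ∈ C p) ∧
      ∀ p : ℕ → P, (∀ n, p n ∈ range base ∪ A) → continuum ≤ #(κ '' C p) →
        (C p ∩ A).Nonempty := by
  classical
  have hSeq : #(ℕ → ι ⊕ Om) = continuum := by
    apply le_antisymm
    · rw [← power_def, mk_sum, mk_nat]
      simp only [lift_id, mk_Om]
      calc (#ι + continuum) ^ ℵ₀ ≤ (continuum + continuum) ^ ℵ₀ := by
            exact Cardinal.power_le_power_right (add_le_add hι le_rfl)
        _ = continuum := by
          rw [Cardinal.add_eq_self aleph0_le_continuum, continuum_power_aleph0]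
    · rw [← mk_Om]
      exact mk_le_of_injective (f := fun (a : Om) (_ : ℕ) => (Sum.inr a : ι ⊕ Om))
        fun a b h => Sum.inr_injective (congrFun h 0)
  obtain ⟨e⟩ : Nonempty (Om ≃ Om × (ℕ → ι ⊕ Om)) := by
    rw [← Cardinal.eq, mk_prod, lift_id, lift_id, hSeq, mk_Om,
      Cardinal.mul_eq_self aleph0_le_continuum]
  let b : Om → ℕ → ι ⊕ Om := fun α => (e α).2
  have hb : ∀ s γ, ∃ α, γ < α ∧ b α = s := by
    intro s γ
    by_contra hcon
    push Not at hcon
    have h1 : ∀ β, e.symm (β, s) ∈ Iic γ := by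
      intro β
      by_contra hlt
      refine hcon (e.symm (β, s)) (not_le.1 hlt) ?_
      simp [b]
    have h2 : #Om ≤ #(Iic γ) :=
      mk_le_of_injective (f := fun β => (⟨e.symm (β, s), h1 β⟩ : Iic γ)) fun β β' h => by
        have h' := congrArg Subtype.val h
        have h'' := e.symm.injective h'
        exact congrArg Prod.fst h''
    rw [mk_Om] at h2
    exact absurd (lt_of_le_of_lt h2 (mk_Iic_lt γ)) (lt_irrefl _)
  let q : Om → Option P := (wellFounded_lt (α := Om)).fix (stage κ base C b)
  have hq : ∀ α, q α = stage κ base C b α (fun β _ => q β) := fun α => WellFounded.fix_eq _ _ _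
  have hq1 : ∀ α v, q α = some v →
      Phi κ base C (b α) (fun β => if β < α then q β else none) v := by
    intro α v hv
    rw [hq α, stage] at hv
    split_ifs at hv with h
    · injection hv with hv
      have := h.choose_spec
      rw [hv] at this
      simpa using this
  have hq2 : ∀ α v, Phi κ base C (b α) (fun β => if β < α then q β else none) v →
      ∃ w, q α = some w := by
    intro α v hv
    have hex : ∃ v, Phi κ base C (b α) (fun β => if h : β < α then q β else none) v := ⟨v, by
      simpa using hv⟩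
    rw [hq α, stage, dif_pos hex]
    exact ⟨_, rfl⟩
  have hval : ∀ α (s : ℕ → ι ⊕ Om) p, (∀ n β, s n = Sum.inr β → β < α) → Val base s q p →
      Val base s (fun β => if β < α then q β else none) p := by
    intro α s p hs hv n
    refine ⟨(hv n).1, fun β hβ => ?_⟩
    change (if β < α then q β else none) = some (p n)
    rw [if_pos (hs n β hβ)]
    exact (hv n).2 β hβ
  refine ⟨{v | ∃ α, q α = some v}, ?_, ?_, ?_⟩
  · rintro v ⟨α, hv⟩ w ⟨β, hw⟩ hκ
    rcases lt_trichotomy α β with h | h | h
    · obtain ⟨p, _, _, h3⟩ := hq1 β w hw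
      exact absurd hκ (h3 α v (by simp only [if_pos h]; exact hv))
    · subst h
      rw [hv] at hw
      injection hw
    · obtain ⟨p, _, _, h3⟩ := hq1 α v hv
      exact absurd hκ.symm (h3 β w (by simp only [if_pos h]; exact hw))
  · rintro v ⟨α, hv⟩
    obtain ⟨p, _, h2, _⟩ := hq1 α v hv
    exact ⟨p, h2⟩
  · intro p hp hcard
    have hs : ∀ n, ∃ j : ι ⊕ Om, (∀ i, j = Sum.inl i → p n = base i) ∧
        (∀ β, j = Sum.inr β → q β = some (p n)) := by
      intro n
      rcases hp n with ⟨i, hi⟩ | ⟨α, hα⟩
      · refine ⟨Sum.inl i, ?_, ?_⟩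
        · intro i' h
          injection h with h
          rw [← h, hi]
        · intro β h
          cases h
      · refine ⟨Sum.inr α, ?_, ?_⟩
        · intro i' h
          cases h
        · intro β h
          injection h with h
          rw [← h, hα]
    choose s hs1 hs2 using hs
    obtain ⟨γ, hγ⟩ : ∃ γ : Om, ∀ n β, s n = Sum.inr β → β < γ := by
      have hne : Nonempty Om := by
        rw [← mk_ne_zero_iff, mk_Om]
        exact continuum_ne_zero
      obtain ⟨γ, hγ⟩ := exists_bound fun n => (s n).elim (fun _ => Classical.arbitrary Om) id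
      refine ⟨γ, fun n β hβ => ?_⟩
      have := hγ n
      rw [hβ] at this
      exact this
    obtain ⟨α, hα1, hα2⟩ := hb s γ
    have hsα : ∀ n β, s n = Sum.inr β → β < α := fun n β hβ => (hγ n β hβ).trans hα1
    have hV : Val base s q p := fun n => ⟨hs1 n, hs2 n⟩
    -- a fresh key
    obtain ⟨v, hvC, hvf⟩ : ∃ v ∈ C p, ∀ β w, (if β < α then q β else none) = some w →
        κ w ≠ κ v := by
      by_contra hcon
      push Not at hcon
      have h1 : ∀ k : κ '' C p, ∃ β : Iio α, ∃ w, q β.1 = some w ∧ κ w = k.1 := by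
        rintro ⟨k, v, hv, rfl⟩
        obtain ⟨β, w, hw, hk⟩ := hcon v hv
        split_ifs at hw with hlt
        exact ⟨⟨β, hlt⟩, w, hw, hk⟩
      choose β w hw hk using h1
      have h2 : #(κ '' C p) ≤ #(Iio α) :=
        mk_le_of_injective (f := β) fun k k' h => by
          apply Subtype.ext
          rw [← hk k, ← hk k']
          have h4 := hw k
          rw [h, hw k'] at h4
          injection h4 with h4
          rw [h4]
      exact absurd (lt_of_le_of_lt (hcard.trans h2) (mk_Iio_lt α)) (lt_irrefl _)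
    obtain ⟨w, hw⟩ := hq2 α v ⟨p, by rw [hα2]; exact hval α s p hsα hV, hvC, hvf⟩
    obtain ⟨p', hp', hwC, _⟩ := hq1 α w hw
    refine ⟨w, ?_, α, hw⟩
    have hpp : p' = p := by
      funext n
      have h1 := hp' n
      have h2 := hval α s p hsα hV n
      rw [hα2] at h1
      rcases hsn : s n with i | β
      · rw [h1.1 i hsn, h2.1 i hsn]
      · have e1 := h1.2 β hsn
        have e2 := h2.2 β hsn
        rw [e2] at e1
        injection e1 with e1
        exact e1.symm
    rw [← hpp]
    exact hwC

end Pool.Agent.helper73.Recur
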