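import Pool.Agent.helper73.Coherent
import Pool.Agent.helper73.Recur

set_option autoImplicit false
set_option linter.deprecated false

open Set Filter Cardinal

namespace Pool.Agent.helper73.TreeUltra

/-! ### Nodes -/

/-- nodes of the binary tree -/
abbrev D : Type := List Bool

/-- length of a node -/
def len (s : D) : ℕ := s.length

/-- the node as a function, continued by `false` -/
def zz (s : D) (i : ℕ) : Bool := s.getD i false

/-- restriction of a branch -/
def res (x : ℕ → Bool) (m : ℕ) : D := (List.range m).map x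

lemma len_res (x : ℕ → Bool) (m : ℕ) : len (res x m) = m := by
  simp [len, res]

lemma zz_res (x : ℕ → Bool) {m i : ℕ} (h : i < m) : zz (res x m) i = x i := by
  simp [zz, res, h]

/-- the nodes that extend `x | m` -/
def Cyl (x : ℕ → Bool) (m : ℕ) : Set D := {s | m ≤ len s ∧ ∀ i < m, zz s i = x i}

/-- the nodes that leave `x` exactly at level `j` -/
def Off (x : ℕ → Bool) (j : ℕ) : Set D := {s | (∀ i < j, zz s i = x i) ∧ zz s j ≠ x j ∧ j < len s}

lemma Off_unique {x : ℕ → Bool} {s : D} {j k : ℕ} (h1 : s ∈ Off x j) (h2 : s ∈ Off x k) :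
    j = k := by
  rcases lt_trichotomy j k with h | h | h
  · exact absurd (h2.1 j h) h1.2.1
  · exact h
  · exact absurd (h1.1 k h) h2.2.1

/-- the level at which `s` leaves `x` -/
noncomputable def lv (x : ℕ → Bool) (s : D) : ℕ := sInf {j | s ∈ Off x j}

lemma lv_eq {x : ℕ → Bool} {s : D} {j : ℕ} (h : s ∈ Off x j) : lv x s = j := by
  have : {j | s ∈ Off x j} = {j} := by
    ext k
    constructor
    · intro hk
      exact Off_unique hk h
    · rintro rfl
      exact h
  rw [lv, this, csInf_singleton]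

lemma Off_subset_Cyl {x : ℕ → Bool} {j m : ℕ} (h : m ≤ j) : Off x j ⊆ Cyl x m := by
  rintro s ⟨h1, _, h3⟩
  exact ⟨by omega, fun i hi => h1 i (by omega)⟩

lemma Cyl_mono {x : ℕ → Bool} {j m : ℕ} (h : m ≤ j) : Cyl x j ⊆ Cyl x m := by
  rintro s ⟨h1, h2⟩
  exact ⟨by omega, fun i hi => h2 i (by omega)⟩

/-- incompatible nodes -/
def Inc (s s' : D) : Prop := ∃ i, zz s i ≠ zz s' i ∧ i < len s ∧ i < len s'

lemma Inc.symm {s s' : D} (h : Inc s s') : Inc s' s := by
  obtain ⟨i, h1, h2, h3⟩ := h
  exact ⟨i, h1.symm, h3, h2⟩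

lemma inc_of_off {x : ℕ → Bool} {s s' : D} {j k : ℕ} (h1 : s ∈ Off x j) (h2 : s' ∈ Off x k)
    (h : j ≠ k) : Inc s s' := by
  rcases lt_or_gt_of_ne h with h | h
  · refine ⟨j, ?_, h1.2.2, by have := h2.2.2; omega⟩
    rw [h2.1 j h]
    exact h1.2.1
  · refine ⟨k, ?_, by have := h1.2.2; omega, h2.2.2⟩
    rw [h1.1 k h]
    exact h2.2.1.symm

/-- antichains -/
def AC (M : Set D) : Prop := ∀ s ∈ M, ∀ s' ∈ M, s ≠ s' → Inc s s'

lemma AC.mono {M M' : Set D} (h : AC M) (hs : M' ⊆ M) : AC M' :=
  fun s h1 s' h2 hne => h s (hs h1) s' (hs h2) hne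

/-- the standard off-branch nodes -/
def leaf (x : ℕ → Bool) (m : ℕ) : D := res (Function.update x m (!x m)) (m + 1)

lemma leaf_mem (x : ℕ → Bool) (m : ℕ) : leaf x m ∈ Off x m := by
  refine ⟨fun i hi => ?_, ?_, ?_⟩
  · rw [leaf, zz_res _ (by omega), Function.update_of_ne hi.ne]
  · rw [leaf, zz_res _ (by omega), Function.update_self]
    cases x m <;> simp
  · rw [leaf, len_res]
    omega

lemma len_leaf (x : ℕ → Bool) (m : ℕ) : len (leaf x m) = m + 1 := len_res _ _

lemma AC_leaf (x : ℕ → Bool) : AC (range (leaf x)) := by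
  rintro _ ⟨m, rfl⟩ _ ⟨m', rfl⟩ hne
  refine inc_of_off (leaf_mem x m) (leaf_mem x m') ?_
  rintro rfl
  exact hne rfl

/-- either `s` leaves `x` at some level or it is an initial segment of `x` -/
lemma off_or (x : ℕ → Bool) (s : D) : (∃ j, s ∈ Off x j) ∨ ∀ i < len s, zz s i = x i := by
  classical
  by_cases h : ∃ i, i < len s ∧ zz s i ≠ x i
  · left
    refine ⟨Nat.find h, fun i hi => ?_, (Nat.find_spec h).2, (Nat.find_spec h).1⟩
    have := Nat.find_min h hi
    push Not at this
    exact this (hi.trans (Nat.find_spec h).1)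
  · right
    push Not at h
    exact h

/-! ### Location of an ultrafilter -/

/-- the ultrafilter converges to the branch `x` -/
def LocAt (x : ℕ → Bool) (u : Ultrafilter D) : Prop := ∀ m, Cyl x m ∈ u

lemma LocAt.unique {x y : ℕ → Bool} {u : Ultrafilter D} (hx : LocAt x u) (hy : LocAt y u) :
    x = y := by
  funext i
  obtain ⟨s, hs1, hs2⟩ := u.nonempty_of_mem (inter_mem (hx (i + 1)) (hy (i + 1)))
  rw [← hs1.2 i (by omega), ← hs2.2 i (by omega)]

open Classical in
/-- the location -/
noncomputable def loc (u : Ultrafilter D) : ℕ → Bool :=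
  if h : ∃ x, LocAt x u then h.choose else fun _ => false

lemma loc_eq {x : ℕ → Bool} {u : Ultrafilter D} (h : LocAt x u) : loc u = x := by
  have hex : ∃ x, LocAt x u := ⟨x, h⟩
  rw [loc, dif_pos hex]
  exact hex.choose_spec.unique h

/-- the key of an ultrafilter: location and distribution of the levels -/
noncomputable def key (u : Ultrafilter D) : (ℕ → Bool) × Ultrafilter ℕ := (loc u, u.map (lv (loc u)))

lemma key_eq {x : ℕ → Bool} {u : Ultrafilter D} (h : LocAt x u) : key u = (x, u.map (lv x)) := by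
  rw [key, loc_eq h]

lemma off_of_AC {x : ℕ → Bool} {u : Ultrafilter D} (hx : LocAt x u) {M : Set D} (hM : AC M)
    (hMu : M ∈ u) : ∀ s ∈ M, ∃ j, s ∈ Off x j := by
  intro s hs
  rcases off_or x s with h | h
  · exact h
  · exfalso
    obtain ⟨s', h1, h2⟩ := u.nonempty_of_mem (inter_mem hMu (hx (len s + 1)))
    have hne : s ≠ s' := by
      rintro rfl
      have := h2.1
      omega
    obtain ⟨i, hi1, hi2, hi3⟩ := hM s hs s' h1 hne
    apply hi1
    rw [h i hi2, h2.2 i (by omega)]

lemma cyl_mem_of_locAt {x y : ℕ → Bool} {u : Ultrafilter D} (hy : LocAt y u) {j : ℕ}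
    (h1 : ∀ i < j, y i = x i) (h2 : y j ≠ x j) : Off x j ∈ u := by
  refine mem_of_superset (hy (j + 1)) ?_
  rintro s ⟨hs1, hs2⟩
  refine ⟨fun i hi => ?_, ?_, by omega⟩
  · rw [hs2 i (by omega)]
    exact h1 i hi
  · rw [hs2 j (by omega)]
    exact h2

/-! ### Almost disjoint coding -/

/-- code of a branch -/
def cod (r : ℕ → Bool) (n : ℕ) : ℕ := Encodable.encode (res r n)

lemma cod_eq {r r' : ℕ → Bool} {n n' : ℕ} (h : cod r n = cod r' n') :
    n = n' ∧ ∀ i < n, r i = r' i := by
  have h1 : res r n = res r' n' := Encodable.encode_injective h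
  have h2 : n = n' := by
    have := congrArg len h1
    rwa [len_res, len_res] at this
  refine ⟨h2, fun i hi => ?_⟩
  have := congrArg (fun s => zz s i) h1
  rwa [zz_res _ hi, zz_res _ (by omega)] at this

/-- free ultrafilters indexed by branches -/
noncomputable def vv (r : ℕ → Bool) : Ultrafilter ℕ := (hyperfilter ℕ).map (cod r)

lemma vv_inj {r r' : ℕ → Bool} (h : vv r = vv r') : r = r' := by
  by_contra hne
  obtain ⟨i, hi⟩ : ∃ i, r i ≠ r' i := by
    by_contra hcon
    push Not at hcon
    exact hne (funext hcon)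
  have h1 : cod r '' Ioi i ∈ vv r := by
    rw [vv, Ultrafilter.mem_map]
    refine mem_of_superset (x := Ioi i) ?_ (subset_preimage_image _ _)
    refine hyperfilter_le_cofinite ?_
    rw [mem_cofinite, compl_Ioi]
    exact finite_Iic i
  rw [h, vv, Ultrafilter.mem_map] at h1
  obtain ⟨n, hn⟩ := (hyperfilter ℕ).nonempty_of_mem h1
  obtain ⟨m, hm, hmn⟩ := hn
  obtain ⟨_, h3⟩ := cod_eq hmn
  exact hi (h3 i hm)

lemma vv_free (r : ℕ → Bool) : (vv r : Filter ℕ) ≤ cofinite := by
  have hinj : Function.Injective (cod r) := fun a b h => (cod_eq h).1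
  exact (hinj.tendsto_cofinite.mono_left hyperfilter_le_cofinite)

/-! ### The base points indexed by `ω₁` -/

/-- the first uncountable ordinal as a type -/
abbrev W1 : Type := (Cardinal.aleph 1).ord.ToType

lemma mk_W1 : #W1 = aleph 1 := Cardinal.mk_ord_toType _

lemma W1_Iio (a : W1) : (Iio a).Countable := by
  rw [← Cardinal.le_aleph0_iff_set_countable, ← Order.lt_succ_iff, ← Cardinal.aleph_zero,
    ← Cardinal.aleph_succ]
  have := Cardinal.mk_Iio_toType_ord_lt a
  simpa using this

instance : Uncountable W1 := by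
  rw [← Cardinal.aleph0_lt_mk_iff, mk_W1]
  exact Cardinal.aleph0_lt_aleph_one

lemma exists_jj : ∃ f : W1 → (ℕ → Bool), Function.Injective f := by
  have : #W1 ≤ #(ℕ → Bool) := by
    rw [mk_W1]
    simpa using Cardinal.aleph_one_le_continuum
  obtain ⟨f⟩ := (Cardinal.le_def _ _).1 this
  exact ⟨f, f.injective⟩

/-- an injection of `ω₁` into the branches -/
noncomputable def jj : W1 → (ℕ → Bool) := exists_jj.choose
lemma jj_inj : Function.Injective jj := exists_jj.choose_spec

lemma exists_tau : ∃ f : W1 → D, ∀ t, ¬ {α | f α = t}.Countable := by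
  obtain ⟨e⟩ : Nonempty (W1 ≃ W1 × D) := by
    rw [← Cardinal.eq, mk_prod, lift_id, lift_id, mk_W1]
    have : #D = aleph0 := Cardinal.mk_eq_aleph0 _
    rw [this, Cardinal.mul_aleph0_eq (Cardinal.aleph0_le_aleph 1)]
  refine ⟨fun α => (e α).2, fun t ht => ?_⟩
  have h1 : Function.Injective (fun β : W1 => (⟨e.symm (β, t), by simp⟩ :
      {α | (e α).2 = t})) := by
    intro β β' h
    have := congrArg Subtype.val h
    exact congrArg Prod.fst (e.symm.injective this)
  have : Countable {α | (e α).2 = t} := ht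
  exact not_countable (α := W1) h1.countable

/-- a partition of `ω₁` into uncountable pieces -/
noncomputable def tau : W1 → D := exists_tau.choose
lemma tau_spec : ∀ t, ¬ {α | tau α = t}.Countable := exists_tau.choose_spec

/-- the location of the base point -/
noncomputable def xx (α : W1) (i : ℕ) : Bool := if i < len (tau α) then zz (tau α) i else jj α i

lemma xx_countable (x : ℕ → Bool) : {α | xx α = x}.Countable := by
  have hinj : InjOn (fun α => ((tau α, res (jj α) (len (tau α))) : D × D)) {α | xx α = x} := by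
    intro α hα β hβ h
    have h1 : tau α = tau β := congrArg Prod.fst h
    have h2 : res (jj α) (len (tau α)) = res (jj β) (len (tau β)) := congrArg Prod.snd h
    apply jj_inj
    funext i
    by_cases hi : i < len (tau α)
    · have := congrArg (fun s => zz s i) h2
      rwa [zz_res _ hi, zz_res _ (by rwa [← h1])] at this
    · have e1 := congrFun hα i
      have e2 := congrFun hβ i
      rw [xx, if_neg hi] at e1
      rw [xx, if_neg (by rwa [← h1])] at e2
      rw [e1, e2]
  exact (Set.MapsTo.countable_of_injOn (mapsTo_univ _ _) hinj (Set.to_countable _))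

/-- the base points -/
noncomputable def aa (α : W1) : Ultrafilter D := (vv (jj α)).map (leaf (xx α))

lemma aa_loc (α : W1) : LocAt (xx α) (aa α) := by
  intro m
  rw [aa, Ultrafilter.mem_map]
  refine vv_free _ ?_
  rw [mem_cofinite]
  refine (finite_Iio m).subset ?_
  intro n hn
  by_contra hcon
  apply hn
  exact Off_subset_Cyl (not_lt.1 hcon) (leaf_mem (xx α) n)

lemma aa_leaf (α : W1) : range (leaf (xx α)) ∈ aa α := by
  rw [aa, Ultrafilter.mem_map]
  exact mem_of_superset univ_mem fun n _ => mem_range_self n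

lemma key_aa (α : W1) : key (aa α) = (xx α, vv (jj α)) := by
  rw [key_eq (aa_loc α), aa, Ultrafilter.map_map]
  have : lv (xx α) ∘ leaf (xx α) = id := funext fun m => lv_eq (leaf_mem _ m)
  rw [this, Ultrafilter.map_id]

lemma key_aa_inj : Function.Injective fun α => key (aa α) := by
  intro α β h
  dsimp only at h
  rw [key_aa, key_aa] at h
  exact jj_inj (vv_inj (congrArg Prod.snd h))

/-- small antichains -/
def SmallAC (M : Set D) : Prop := AC M ∧ {α | M ∈ aa α}.Countable

lemma small_leaf (x : ℕ → Bool) : SmallAC (range (leaf x)) := by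
  refine ⟨AC_leaf x, (xx_countable x).mono ?_⟩
  intro α hα
  change xx α = x
  by_contra hne
  obtain ⟨i, hi⟩ : ∃ i, xx α i ≠ x i := by
    by_contra hcon
    push Not at hcon
    exact hne (funext hcon)
  classical
  have hex : ∃ i, xx α i ≠ x i := ⟨i, hi⟩
  have h1 : Off x (Nat.find hex) ∈ aa α := by
    refine cyl_mem_of_locAt (aa_loc α) (fun l hl => ?_) (Nat.find_spec hex)
    have := Nat.find_min hex hl
    push Not at this
    exact this
  have h2 : range (leaf x) ∩ Off x (Nat.find hex) ∩ Cyl (xx α) (Nat.find hex + 2) ∈ aa α :=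
    inter_mem (inter_mem hα h1) (aa_loc α (Nat.find hex + 2))
  obtain ⟨s, ⟨⟨m, rfl⟩, hs2⟩, hs3⟩ := (aa α).nonempty_of_mem h2
  have h3 := Off_unique (leaf_mem x m) hs2
  have h4 := hs3.1
  rw [len_leaf] at h4
  omega

lemma small_singleton (s : D) : SmallAC {s} := by
  refine ⟨?_, ?_⟩
  · rintro a rfl b rfl hne
    exact absurd rfl hne
  · refine Set.countable_empty.mono ?_
    intro α hα
    obtain ⟨s', h1, h2⟩ := (aa α).nonempty_of_mem (inter_mem hα (aa_loc α (len s + 1)))
    rw [mem_singleton_iff.1 h1] at h2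
    have := h2.1
    exfalso
    omega

/-- admissible ultrafilters -/
def Adm (u : Ultrafilter D) : Prop := (∃ x, LocAt x u) ∧ ∃ M ∈ u, SmallAC M

lemma adm_aa (α : W1) : Adm (aa α) := ⟨⟨_, aa_loc α⟩, _, aa_leaf α, small_leaf _⟩

end Pool.Agent.helper73.TreeUltra
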